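import Mathlib

/-!
# Adams operations and complete symmetric functions in a polynomial ring over `ℤ`
-/

set_option autoImplicit false

namespace Pool.Agent.HW

section ld

open PowerSeries

variable {R : Type*} [CommRing R]

/-- `X g' = g (S 1 X + S 2 X ^ 2 + ...)` and `g(0) = 1` -/
def LDR (g : PowerSeries R) (S : ℕ → R) : Prop :=
  coeff 0 g = 1 ∧ X * derivative R g = g * (X * mk fun l => S (l + 1))

/-- the recursion of the complete symmetric functions -/
def Rec (h : ℕ → R) (S : ℕ → R) : Prop :=
  h 0 = 1 ∧ ∀ m : ℕ, (m : R) * h m = ∑ l ∈ Finset.range m, S (l + 1) * h (m - (l + 1))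

lemma LDR.one : LDR (1 : PowerSeries R) (fun _ => 0) := by
  refine ⟨by simp, ?_⟩
  have : (mk fun _ => (0 : R)) = (0 : PowerSeries R) := by ext; simp
  rw [this]; simp

lemma LDR.mul {g h : PowerSeries R} {S T : ℕ → R} (hg : LDR g S) (hh : LDR h T) :
    LDR (g * h) (fun l => S l + T l) := by
  refine ⟨?_, ?_⟩
  · rw [coeff_zero_eq_constantCoeff_apply, map_mul, ← coeff_zero_eq_constantCoeff_apply,
      ← coeff_zero_eq_constantCoeff_apply, hg.1, hh.1, one_mul]
  · have e : (mk fun l => S (l + 1) + T (l + 1)) =
        (mk fun l => S (l + 1)) + mk fun l => T (l + 1) := by ext; simp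
    rw [Derivation.leibniz, smul_eq_mul, smul_eq_mul, e, mul_add, mul_add, mul_left_comm X g,
      hh.2, mul_left_comm X h, hg.2]
    ring

lemma LDR.congr {g : PowerSeries R} {S T : ℕ → R} (hg : LDR g S) (h : ∀ l, 0 < l → S l = T l) :
    LDR g T := by
  refine ⟨hg.1, ?_⟩
  rw [hg.2]
  congr 3
  funext l
  exact h _ l.succ_pos

lemma LDR.rec {g : PowerSeries R} {S : ℕ → R} (hg : LDR g S) : Rec (fun m => coeff m g) S := by
  refine ⟨hg.1, ?_⟩
  intro m
  cases m with
  | zero => simp
  | succ m =>
    have h := congrArg (coeff (m + 1)) hg.2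
    rw [coeff_succ_X_mul, coeff_derivative, mul_left_comm, coeff_succ_X_mul, mul_comm g,
      coeff_mul, Finset.Nat.sum_antidiagonal_eq_sum_range_succ
        (fun i j => coeff i (mk fun l => S (l + 1)) * coeff j g)] at h
    rw [mul_comm, Nat.cast_add, Nat.cast_one, h]
    refine Finset.sum_congr rfl fun l _ => ?_
    rw [coeff_mk, Nat.add_sub_add_right]

/-- `1 + a X + a ^ 2 X ^ 2 + ...` -/
noncomputable def geoR (a : R) : PowerSeries R := mk fun l => a ^ l

/-- `1 - a X` -/
noncomputable def linR (a : R) : PowerSeries R := 1 - C a * X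

lemma linR_mul_geoR (a : R) : linR a * geoR a = 1 := by
  unfold linR geoR
  rw [sub_mul, one_mul, mul_assoc]
  ext m
  rw [map_sub, coeff_C_mul, coeff_mk]
  cases m with
  | zero => simp
  | succ m => rw [coeff_succ_X_mul, coeff_mk, coeff_one, if_neg m.succ_ne_zero, pow_succ']; ring

lemma LDR_geo (a : R) : LDR (geoR a) (fun l => a ^ l) := by
  refine ⟨by simp [geoR], ?_⟩
  ext m
  cases m with
  | zero => simp
  | succ m =>
    rw [coeff_succ_X_mul, coeff_derivative, mul_left_comm, coeff_succ_X_mul, coeff_mul,
      Finset.Nat.sum_antidiagonal_eq_sum_range_succ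
        (fun i j => coeff i (geoR a) * coeff j (mk fun l => a ^ (l + 1)))]
    have : ∀ l ∈ Finset.range m.succ, coeff l (geoR a) * coeff (m - l) (mk fun l => a ^ (l + 1)) =
        a ^ (m + 1) := by
      intro l hl
      rw [Finset.mem_range] at hl
      unfold geoR
      rw [coeff_mk, coeff_mk, ← pow_add]
      congr 1; omega
    rw [Finset.sum_congr rfl this, Finset.sum_const, Finset.card_range, nsmul_eq_mul]
    unfold geoR
    rw [coeff_mk]
    push_cast
    ring

lemma LDR_lin (a : R) : LDR (linR a) (fun l => - a ^ l) := by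
  refine ⟨by simp [linR], ?_⟩
  have h1 : derivative R (linR a) = - C a := by
    unfold linR
    rw [map_sub, Derivation.map_one_eq_zero, Derivation.leibniz, derivative_C, derivative_X]
    simp
  have h2 : (mk fun l => - a ^ (l + 1)) = - (C a * geoR a) := by
    ext m
    unfold geoR
    rw [coeff_mk, map_neg, coeff_C_mul, coeff_mk, pow_succ']
  rw [h1, h2]
  have h3 : linR a * (X * -(C a * geoR a)) = - (X * C a * (linR a * geoR a)) := by ring
  rw [h3, linR_mul_geoR]
  ring

/-- uniqueness of the recursion -/
lemma Rec.unique [IsDomain R] [CharZero R] {h h' S : ℕ → R} (hh : Rec h S) (hh' : Rec h' S)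
    (m : ℕ) : h m = h' m := by
  induction m using Nat.strong_induction_on with
  | _ m ih =>
    rcases Nat.eq_zero_or_pos m with rfl | hm
    · rw [hh.1, hh'.1]
    · have hm' : (m : R) ≠ 0 := Nat.cast_ne_zero.2 hm.ne'
      apply mul_left_cancel₀ hm'
      rw [hh.2 m, hh'.2 m]
      refine Finset.sum_congr rfl fun l hl => ?_
      rw [ih _ (by omega)]

lemma Rec.map {R' : Type*} [CommRing R'] {h S : ℕ → R} (hh : Rec h S) (φ : R →+* R') :
    Rec (fun m => φ (h m)) (fun l => φ (S l)) := by
  refine ⟨by show φ (h 0) = 1; rw [hh.1, map_one], fun m => ?_⟩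
  show (m : R') * φ (h m) = _
  rw [← map_natCast φ m, ← map_mul, hh.2, map_sum]
  simp only [map_mul]

end ld

section adams

open MvPolynomial

variable {W : Type*}

lemma expand_monomial_one (l : ℕ) (t : W →₀ ℕ) :
    expand l (monomial t (1 : ℤ)) = monomial t 1 ^ l := by
  rw [monomial_eq, C_1, one_mul, Finsupp.prod, map_prod, ← Finset.prod_pow]
  refine Finset.prod_congr rfl fun i _ => ?_
  rw [map_pow, expand_X, ← pow_mul, ← pow_mul, mul_comm]

/-- the complete symmetric functions of a polynomial exist -/
theorem exists_LDR (f : MvPolynomial W ℤ) : ∃ g, LDR g (fun l => expand l f) := by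
  have h0 : ∃ g : PowerSeries (MvPolynomial W ℤ), LDR g (fun l => expand l (0 : MvPolynomial W ℤ)) :=
    ⟨1, LDR.one.congr fun l _ => (map_zero _).symm⟩
  have hadd : ∀ f f' : MvPolynomial W ℤ, (∃ g, LDR g (fun l => expand l f)) →
      (∃ g, LDR g (fun l => expand l f')) → ∃ g, LDR g (fun l => expand l (f + f')) := by
    rintro f f' ⟨g, hg⟩ ⟨g', hg'⟩
    exact ⟨g * g', (hg.mul hg').congr fun l _ => (map_add _ _ _).symm⟩
  have hm : ∀ (t : W →₀ ℕ) (z : ℤ), ∃ g, LDR g (fun l => expand l (monomial t z)) := by
    intro t z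
    have hpos : ∀ n : ℕ, ∃ g, LDR g (fun l => expand l (monomial t (n : ℤ))) := by
      intro n
      induction n with
      | zero => simpa using h0
      | succ n ih =>
        have := hadd _ _ ih ⟨geoR (monomial t 1), (LDR_geo _).congr fun l _ =>
          (expand_monomial_one l t).symm⟩
        rw [← map_add (monomial t)] at this
        simpa using this
    have hneg : ∀ n : ℕ, ∃ g, LDR g (fun l => expand l (monomial t (-(n : ℤ)))) := by
      intro n
      induction n with
      | zero => simpa using h0
      | succ n ih =>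
        have h1 : ∃ g, LDR g (fun l => expand l (monomial t (-1 : ℤ))) := by
          refine ⟨linR (monomial t 1), (LDR_lin _).congr fun l _ => ?_⟩
          rw [← expand_monomial_one, map_neg (monomial t), map_neg]
        have := hadd _ _ ih h1
        rw [← map_add (monomial t)] at this
        have e : (-(n : ℤ) + -1) = -((n + 1 : ℕ) : ℤ) := by push_cast; ring
        rw [e] at this
        exact this
    rcases Int.eq_nat_or_neg z with ⟨n, rfl | rfl⟩
    · exact hpos n
    · exact hneg n
  rw [← support_sum_monomial_coeff f]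
  exact Finset.sum_induction _ (fun f => ∃ g, LDR g (fun l => expand l f)) hadd h0
    (fun t _ => hm t _)

/-- the complete symmetric functions of a polynomial -/
theorem exists_rec (f : MvPolynomial W ℤ) :
    ∃ h : ℕ → MvPolynomial W ℤ, Rec h (fun l => expand l f) := by
  obtain ⟨g, hg⟩ := exists_LDR f
  exact ⟨_, hg.rec⟩

/-- the complete symmetric functions have the symmetries of the polynomial -/
theorem Rec.rename {f : MvPolynomial W ℤ} {h : ℕ → MvPolynomial W ℤ}
    (hh : Rec h (fun l => expand l f)) (s : W → W) (hs : MvPolynomial.rename s f = f) (m : ℕ) :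
    MvPolynomial.rename s (h m) = h m := by
  have h1 := hh.map (MvPolynomial.rename (R := ℤ) s).toRingHom
  have : (fun l => (MvPolynomial.rename (R := ℤ) s).toRingHom (expand l f)) =
      fun l => expand l f := by
    funext l
    show MvPolynomial.rename s (expand l f) = _
    rw [rename_expand, hs]
  rw [this] at h1
  exact Rec.unique h1 hh m

end adams

end Pool.Agent.HW
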