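import Pool.Agent.HW.Count

/-!
# Zeta functions of schemes of finite type and counting functions
-/

set_option autoImplicit false

open AlgebraicGeometry CategoryTheory TopologicalSpace
open Pool.Agent.Helper29.Zeta Pool.Agent.Helper81.CP

namespace Pool.Agent.HW

/-- finite fields with the same number of elements are isomorphic -/
lemma exists_ringEquiv_FF (K : Type) [Field K] [Finite K] :
    Nonempty (K ≃+* FF (Nat.card K)) := by
  have := Fintype.ofFinite K
  have hn : IsPrimePow (Nat.card K) := by
    rw [Nat.card_eq_fintype_card]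
    exact FiniteField.isPrimePow_card K
  have := Fintype.ofFinite (FF (Nat.card K))
  have h1 : Fintype.card K = Fintype.card (FF (Nat.card K)) := by
    rw [← Nat.card_eq_fintype_card, ← Nat.card_eq_fintype_card, card_FF hn]
  exact ⟨FiniteField.ringEquivOfCardEq h1⟩

/-- the number of points over a finite field only depends on the number of its elements -/
lemma card_points (X : Scheme.{0}) (K : Type) [Field K] [Finite K] :
    Nat.card (Spec (CommRingCat.of K) ⟶ X) = ptCount X (Nat.card K) := by
  obtain ⟨e⟩ := exists_ringEquiv_FF K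
  unfold ptCount
  let i : Spec (CommRingCat.of K) ≅ Spec (CommRingCat.of (FF (Nat.card K))) :=
    Scheme.Spec.mapIso (e.symm.toCommRingCatIso).op
  exact Nat.card_congr (Iso.homCongr i (Iso.refl X))

lemma card_hom_field (A : Type) [CommRing A] (K : Type) [Field K] [Finite K] :
    Nat.card (A →+* K) = Nat.card (A →+* FF (Nat.card K)) := by
  obtain ⟨e⟩ := exists_ringEquiv_FF K
  exact Nat.card_congr
    { toFun := fun φ => e.toRingHom.comp φ
      invFun := fun φ => e.symm.toRingHom.comp φ
      left_inv := fun φ => by ext a; simp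
      right_inv := fun φ => by ext a; simp }

lemma card_points_spec (A : Type) [CommRing A] (K : Type) [Field K] :
    Nat.card (Spec (CommRingCat.of K) ⟶ Spec (CommRingCat.of A)) = Nat.card (A →+* K) := by
  refine Nat.card_congr ((Spec.homEquiv (R := CommRingCat.of A) (S := CommRingCat.of K)).trans
    ⟨fun φ => φ.hom, fun φ => CommRingCat.ofHom φ, fun _ => rfl, fun _ => rfl⟩)

lemma IsCount.growth {c : ℕ → ℂ} (h : IsCount c) : Growth c := by
  obtain ⟨A, i1, i2, hA⟩ := h
  refine (growth_cnt A ⊥).congr fun n hn => ?_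
  rw [hA n hn]
  unfold cnt
  rw [Complex.ofReal_natCast]
  congr 1
  exact Nat.card_congr
    { toFun := fun φ => φ.1
      invFun := fun φ => ⟨φ, bot_le⟩
      left_inv := fun φ => rfl
      right_inv := fun φ => rfl }

/-- the zeta function of a scheme of finite type -/
theorem zeta_scheme {X : Scheme.{0}} (hX : IsFT X) :
    ∃ σ : ℝ, ∀ s : ℂ, σ < s.re →
      zetaProd X s = Complex.exp (D (fun n => (ptCount X n : ℂ)) s) := by
  have hc := hasCount_ptCount hX
  have hg := (isCount_ptCount hX).growth
  obtain ⟨f, hf, hq⟩ := hX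
  have hJ : JacobsonSpace X := LocallyOfFiniteType.jacobsonSpace f
  have hg' : Growth (fun n => (((ptCount X n : ℝ)) : ℂ)) := by
    simpa only [Complex.ofReal_natCast] using hg
  have h := euler_scheme f hg' hc
  simpa only [Complex.ofReal_natCast] using h

/-- (i) the points of a scheme of finite type are a counting function, and give its zeta
function -/
theorem exists_count_scheme {X : Scheme.{0}} (hX : IsFT X) :
    ∃ c : ℕ → ℂ, IsCount c ∧
      (∀ (K : Type) [Field K] [Finite K],
        c (Nat.card K) = (Nat.card (Spec (CommRingCat.of K) ⟶ X) : ℂ)) ∧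
      ∃ σ : ℝ, ∀ s : ℂ, σ < s.re → zetaProd X s = Complex.exp (D c s) := by
  refine ⟨fun n => (ptCount X n : ℂ), isCount_ptCount hX, fun K _ _ => ?_, zeta_scheme hX⟩
  rw [card_points X K]

lemma isFT_spec (A : Type) [CommRing A] [Algebra.FiniteType ℤ A] :
    IsFT (Spec (CommRingCat.of A)) := by
  refine ⟨Spec.map (CommRingCat.ofHom (algebraMap ℤ A)), ?_, inferInstance⟩
  rw [HasRingHomProperty.Spec_iff (P := @LocallyOfFiniteType)]
  exact RingHom.finiteType_algebraMap.2 inferInstance

/-- (ii) every counting function is the counting function of an affine scheme of finite type -/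
theorem exists_scheme_count {c : ℕ → ℂ} (hc : IsCount c) :
    ∃ (A : Type) (_ : CommRing A), IsFT (Spec (CommRingCat.of A)) ∧
      (∀ (K : Type) [Field K] [Finite K],
        c (Nat.card K) =
          (Nat.card (Spec (CommRingCat.of K) ⟶ Spec (CommRingCat.of A)) : ℂ)) ∧
      ∃ σ : ℝ, ∀ s : ℂ, σ < s.re →
        zetaProd (Spec (CommRingCat.of A)) s = Complex.exp (D c s) := by
  obtain ⟨A, i1, i2, hA⟩ := hc
  have hK : ∀ (K : Type) [Field K] [Finite K],
      c (Nat.card K) =
        (Nat.card (Spec (CommRingCat.of K) ⟶ Spec (CommRingCat.of A)) : ℂ) := by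
    intro K _ _
    have := Fintype.ofFinite K
    have hn : IsPrimePow (Nat.card K) := by
      rw [Nat.card_eq_fintype_card]
      exact FiniteField.isPrimePow_card K
    rw [hA _ hn, card_points_spec, card_hom_field A K]
  refine ⟨A, i1, isFT_spec A, @hK, ?_⟩
  obtain ⟨σ, hσ⟩ := zeta_scheme (isFT_spec A)
  refine ⟨σ, fun s hs => ?_⟩
  rw [hσ s hs]
  unfold D
  rw [coef_congr (c' := c) fun n hn => ?_]
  have h1 := hK (FF n)
  rw [card_FF hn] at h1
  rw [h1]
  rfl

end Pool.Agent.HW
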