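import Pool.Agent.HW.Adams
import Pool.Agent.HW3.Desc

/-!
# The counting functions built from a family, as polynomials in the Weil numbers
-/

set_option autoImplicit false

open MvPolynomial Pool.Agent.HW3

namespace Pool.Agent.HW

/-- the functions built from the functions `pts i` and the indicator of the integers prime to `N` by
sums, products, multiplication by `n` and symmetric powers -/
inductive Built (N : ℕ) {I : Type} (pts : I → ℕ → ℂ) : (ℕ → ℂ) → Prop
  | congr {c c' : ℕ → ℂ} : Built N pts c → (∀ n, IsPrimePow n → c' n = c n) → Built N pts c'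
  | zero : Built N pts (fun _ => 0)
  | one : Built N pts (ind N)
  | base (i : I) : Built N pts (pts i)
  | add {c c' : ℕ → ℂ} : Built N pts c → Built N pts c' → Built N pts (fun n => c n + c' n)
  | mul {c c' : ℕ → ℂ} : Built N pts c → Built N pts c' → Built N pts (fun n => c n * c' n)
  | line {c : ℕ → ℂ} : Built N pts c → Built N pts (fun n => (n : ℂ) * c n)
  | sym {c : ℕ → ℂ} (σ : ℕ → ℕ → ℂ) (m : ℕ) : Built N pts c →
      (∀ n, IsPrimePow n → σ 0 n = ind N n) →
      (∀ n, IsPrimePow n → ∀ m : ℕ, (m : ℂ) * σ m n =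
        ∑ l ∈ Finset.range m, c (n ^ (l + 1)) * σ (m - (l + 1)) n) →
      Built N pts (σ m)

section rep

variable (N : ℕ) {V : Type} (A : ℕ → V → ℂ) (H : Set (Equiv.Perm V))

/-- the values of the variables at `n`: `n` and the powers of the Weil numbers -/
noncomputable def val (n : ℕ) : Option V → ℂ
  | none => n
  | some v => alph A v n

/-- `c` is an integer polynomial in `n` and the Weil numbers invariant under `H` -/
def Rep (c : ℕ → ℂ) : Prop :=
  ∃ f : MvPolynomial (Option V) ℤ, (∀ s ∈ H, rename (Equiv.optionCongr s) f = f) ∧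
    (∀ n, Good N n → c n = eval₂ (Int.castRingHom ℂ) (val A n) f) ∧
      ∀ n, IsPrimePow n → ¬ Good N n → c n = 0

variable {N A H}

lemma Rep.congr {c c' : ℕ → ℂ} (h : Rep N A H c) (hc : ∀ n, IsPrimePow n → c' n = c n) :
    Rep N A H c' := by
  obtain ⟨f, h1, h2, h3⟩ := h
  exact ⟨f, h1, fun n hn => by rw [hc n hn.1, h2 n hn], fun n hn hn' => by
    rw [hc n hn, h3 n hn hn']⟩

lemma Rep.zero : Rep N A H (fun _ => 0) :=
  ⟨0, fun s _ => map_zero _, fun n _ => by simp, fun n _ _ => rfl⟩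

lemma Rep.one : Rep N A H (ind N) := by
  refine ⟨1, fun s _ => map_one _, fun n hn => ?_, fun n hn hn' => ?_⟩
  · rw [eval₂_one]
    exact if_pos hn.2
  · exact if_neg fun h => hn' ⟨hn, h⟩

lemma Rep.add {c c' : ℕ → ℂ} (h : Rep N A H c) (h' : Rep N A H c') :
    Rep N A H (fun n => c n + c' n) := by
  obtain ⟨f, h1, h2, h3⟩ := h
  obtain ⟨f', h1', h2', h3'⟩ := h'
  refine ⟨f + f', fun s hs => by rw [map_add, h1 s hs, h1' s hs], fun n hn => ?_,
    fun n hn hn' => ?_⟩
  · show c n + c' n = _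
    rw [eval₂_add, h2 n hn, h2' n hn]
  · simp only [h3 n hn hn', h3' n hn hn', add_zero]

lemma Rep.mul {c c' : ℕ → ℂ} (h : Rep N A H c) (h' : Rep N A H c') :
    Rep N A H (fun n => c n * c' n) := by
  obtain ⟨f, h1, h2, h3⟩ := h
  obtain ⟨f', h1', h2', h3'⟩ := h'
  refine ⟨f * f', fun s hs => by rw [map_mul, h1 s hs, h1' s hs], fun n hn => ?_,
    fun n hn hn' => ?_⟩
  · show c n * c' n = _
    rw [eval₂_mul, h2 n hn, h2' n hn]
  · simp only [h3 n hn hn', zero_mul]

lemma Rep.line {c : ℕ → ℂ} (h : Rep N A H c) : Rep N A H (fun n => (n : ℂ) * c n) := by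
  obtain ⟨f, h1, h2, h3⟩ := h
  refine ⟨X none * f, fun s hs => ?_, fun n hn => ?_, fun n hn hn' => ?_⟩
  · rw [map_mul, h1 s hs, rename_X]
    rfl
  · show (n : ℂ) * c n = _
    rw [eval₂_mul, eval₂_X, h2 n hn]
    rfl
  · simp only [h3 n hn hn', mul_zero]

lemma good_pow {n : ℕ} (hn : Good N n) {l : ℕ} (hl : 0 < l) : Good N (n ^ l) :=
  ⟨hn.1.pow hl.ne', Nat.Coprime.pow_left l hn.2⟩

lemma val_pow {n : ℕ} (hn : Good N n) {l : ℕ} (hl : 0 < l) : val A (n ^ l) = val A n ^ l := by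
  obtain ⟨p, k, hp, -, hk, rfl⟩ := good_iff.1 hn
  funext v
  cases v with
  | none => simp [val]
  | some v =>
    show alph A v ((p ^ k) ^ l) = alph A v (p ^ k) ^ l
    rw [← pow_mul, alph_pow A v hp (Nat.mul_pos hk hl), alph_pow A v hp hk, pow_mul]

lemma not_good_pow {n : ℕ} (hn' : ¬ Good N n) (hn : IsPrimePow n) {l : ℕ} (hl : 0 < l) :
    ¬ Good N (n ^ l) := by
  intro h
  refine hn' ⟨hn, ?_⟩
  exact (Nat.coprime_pow_left_iff hl _ _).1 h.2

lemma Rep.sym {c : ℕ → ℂ} (h : Rep N A H c) {σ : ℕ → ℕ → ℂ}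
    (h0 : ∀ n, IsPrimePow n → σ 0 n = ind N n)
    (hrec : ∀ n, IsPrimePow n → ∀ m : ℕ, (m : ℂ) * σ m n =
      ∑ l ∈ Finset.range m, c (n ^ (l + 1)) * σ (m - (l + 1)) n) (m : ℕ) :
    Rep N A H (σ m) := by
  obtain ⟨f, h1, h2, h3⟩ := h
  obtain ⟨g, hg⟩ := exists_rec f
  refine ⟨g m, fun s hs => hg.rename _ (h1 s hs) m, fun n hn => ?_, fun n hn hn' => ?_⟩
  · have e1 : Rec (fun m => σ m n) (fun l => c (n ^ l)) := by
      refine ⟨?_, fun m => hrec n hn.1 m⟩
      show σ 0 n = 1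
      rw [h0 n hn.1]
      exact if_pos hn.2
    have e2 := hg.map (eval₂Hom (Int.castRingHom ℂ) (val A n))
    refine Rec.unique e1 (h' := fun m => eval₂Hom (Int.castRingHom ℂ) (val A n) (g m)) ?_ m
    refine ⟨e2.1, fun m => ?_⟩
    rw [e2.2 m]
    refine Finset.sum_congr rfl fun l _ => ?_
    congr 1
    show eval₂Hom (Int.castRingHom ℂ) (val A n) (expand (l + 1) f) = c (n ^ (l + 1))
    rw [h2 _ (good_pow hn l.succ_pos), coe_eval₂Hom, eval₂_expand, val_pow hn l.succ_pos]
  · induction m using Nat.strong_induction_on with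
    | _ m ih =>
      rcases Nat.eq_zero_or_pos m with rfl | hm
      · rw [h0 n hn]
        exact if_neg fun h => hn' ⟨hn, h⟩
      · have hm' : (m : ℂ) ≠ 0 := Nat.cast_ne_zero.2 hm.ne'
        apply mul_left_cancel₀ hm'
        rw [hrec n hn m, mul_zero]
        refine Finset.sum_eq_zero fun l _ => ?_
        rw [h3 _ (hn.pow l.succ_ne_zero) (not_good_pow hn' hn l.succ_pos), zero_mul]

/-- **the functions built from functions with pure Weil numbers** are integer polynomials in `n` and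
the Weil numbers with the symmetries of the family -/
theorem Built.rep {I : Type} {pts : I → ℕ → ℂ} (hp : ∀ i, Rep N A H (pts i)) {c : ℕ → ℂ}
    (h : Built N pts c) : Rep N A H c := by
  induction h with
  | congr _ hc ih => exact ih.congr hc
  | zero => exact Rep.zero
  | one => exact Rep.one
  | base i => exact hp i
  | add _ _ ih ih' => exact ih.add ih'
  | mul _ _ ih ih' => exact ih.mul ih'
  | line _ ih => exact ih.line
  | sym σ m _ h0 hrec ih => exact ih.sym h0 hrec m

lemma Rep.lin [Fintype V] (z : V → ℤ) (hz : ∀ s ∈ H, ∀ v, z (s v) = z v) {c : ℕ → ℂ}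
    (h : ∀ p k : ℕ, p.Prime → ¬ p ∣ N → 0 < k → c (p ^ k) = ∑ v, (z v : ℂ) * A p v ^ k)
    (h0 : ∀ p k : ℕ, p.Prime → p ∣ N → 0 < k → c (p ^ k) = 0) : Rep N A H c := by
  refine ⟨∑ v : V, MvPolynomial.C (z v) * X (some v), fun s hs => ?_, fun n hn => ?_,
    fun n hn hn' => ?_⟩
  · rw [map_sum]
    refine Fintype.sum_equiv s _ _ fun v => ?_
    rw [map_mul, rename_C, rename_X, hz s hs v]
    rfl
  · obtain ⟨p, k, hp, hN, hk, rfl⟩ := good_iff.1 hn
    rw [h p k hp hN hk, eval₂_sum]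
    refine Finset.sum_congr rfl fun v _ => ?_
    rw [eval₂_mul, eval₂_C, eval₂_X]
    show _ = _ * alph A v (p ^ k)
    rw [alph_pow A v hp hk]
    simp
  · obtain ⟨p, k, hp, hk, rfl⟩ := hn
    refine h0 p k hp.nat_prime ?_ hk
    by_contra hN
    exact hn' (good_iff.2 ⟨p, k, hp.nat_prime, hN, hk, rfl⟩)

/-- the permutations of the Weil numbers of a family which preserve the scheme and the weight -/
def famPerm {I : Type} {J : I → Type} (wt : ∀ i, J i → ℕ) : Set (Equiv.Perm (Σ i, J i)) :=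
  {g | ∀ v, (g v).1 = v.1 ∧ wt (g v).1 (g v).2 = wt v.1 v.2}

lemma Rep.fam {N : ℕ} {I : Type} [Fintype I] {J : I → Type} [∀ i, Fintype (J i)]
    (wt : ∀ i, J i → ℕ) (A : ℕ → (Σ i, J i) → ℂ) (i : I) {c : ℕ → ℂ}
    (h : ∀ p k : ℕ, p.Prime → ¬ p ∣ N → 0 < k →
      c (p ^ k) = ∑ j, (-1) ^ wt i j * A p ⟨i, j⟩ ^ k)
    (h0 : ∀ p k : ℕ, p.Prime → p ∣ N → 0 < k → c (p ^ k) = 0) :
    Rep N A (famPerm wt) c := by
  classical
  refine Rep.lin (fun v => if v.1 = i then (-1) ^ wt v.1 v.2 else 0) ?_ ?_ h0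
  · intro s hs v
    show (if (s v).1 = i then (-1 : ℤ) ^ wt (s v).1 (s v).2 else 0) = _
    rw [(hs v).2, (hs v).1]
  · intro p k hp hN hk
    rw [h p k hp hN hk, Fintype.sum_sigma, Finset.sum_eq_single i]
    · refine Finset.sum_congr rfl fun j _ => ?_
      simp
    · intro i' _ hi
      refine Finset.sum_eq_zero fun j _ => ?_
      simp [hi]
    · intro hi
      exact absurd (Finset.mem_univ i) hi

/-- the same in terms of polynomials in `n` with coefficients in the Weil numbers -/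
theorem Rep.poly {c : ℕ → ℂ} (h : Rep N A H c) :
    ∃ g : Polynomial (MvPolynomial V ℤ), (∀ s ∈ H, ∀ k, rename s (g.coeff k) = g.coeff k) ∧
      (∀ n, Good N n → c n = ∑ k ∈ Finset.range (g.natDegree + 1),
        (n : ℂ) ^ k * eval₂ (Int.castRingHom ℂ) (fun v => alph A v n) (g.coeff k)) ∧
      ∀ n, IsPrimePow n → ¬ Good N n → c n = 0 := by
  obtain ⟨f, h1, h2, h3⟩ := h
  refine ⟨optionEquivLeft ℤ V f, ?_, ?_, h3⟩
  · intro s hs k
    have key : (Polynomial.mapRingHom (rename (R := ℤ) s).toRingHom).comp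
        (optionEquivLeft ℤ V).toRingEquiv.toRingHom =
        (optionEquivLeft ℤ V).toRingEquiv.toRingHom.comp
          (rename (R := ℤ) (Equiv.optionCongr s)).toRingHom := by
      apply MvPolynomial.ringHom_ext
      · intro r
        simp
      · rintro (_ | v)
        · simp
        · simp
    have e := congrArg (fun F => F f) key
    have e' : Polynomial.map (rename (R := ℤ) s).toRingHom (optionEquivLeft ℤ V f) =
        optionEquivLeft ℤ V (rename (Equiv.optionCongr s) f) := e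
    rw [h1 s hs] at e'
    have := congrArg (fun q => Polynomial.coeff q k) e'
    simpa using this
  · intro n hn
    rw [h2 n hn]
    have key : (Polynomial.eval₂RingHom (eval₂Hom (Int.castRingHom ℂ) (fun v => alph A v n))
        (n : ℂ)).comp (optionEquivLeft ℤ V).toRingEquiv.toRingHom =
        eval₂Hom (Int.castRingHom ℂ) (val A n) := by
      apply MvPolynomial.ringHom_ext
      · intro r
        simp
      · rintro (_ | v)
        · simp [val]
        · simp [val]
    have e := congrArg (fun F => F f) key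
    have e' : Polynomial.eval₂ (eval₂Hom (Int.castRingHom ℂ) (fun v => alph A v n)) (n : ℂ)
        (optionEquivLeft ℤ V f) = eval₂ (Int.castRingHom ℂ) (val A n) f := e
    rw [← e', Polynomial.eval₂_eq_sum_range]
    refine Finset.sum_congr rfl fun k _ => ?_
    rw [mul_comm]
    rfl

end rep

/-- **functions built from a family of pure Weil numbers** -/
theorem Built.fam {N : ℕ} {I : Type} [Fintype I] {J : I → Type} [∀ i, Fintype (J i)]
    (wt : ∀ i, J i → ℕ) (A : ℕ → (Σ i, J i) → ℂ) {pts : I → ℕ → ℂ}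
    (h : ∀ (i : I) (p k : ℕ), p.Prime → ¬ p ∣ N → 0 < k →
      pts i (p ^ k) = ∑ j, (-1) ^ wt i j * A p ⟨i, j⟩ ^ k)
    (h0 : ∀ (i : I) (p k : ℕ), p.Prime → p ∣ N → 0 < k → pts i (p ^ k) = 0)
    {c : ℕ → ℂ} (hc : Built N pts c) :
    ∃ g : Polynomial (MvPolynomial (Σ i, J i) ℤ),
      (∀ s : Equiv.Perm (Σ i, J i), (∀ v, (s v).1 = v.1 ∧ wt (s v).1 (s v).2 = wt v.1 v.2) →
        ∀ k, rename s (g.coeff k) = g.coeff k) ∧
      (∀ n, Good N n → c n = ∑ k ∈ Finset.range (g.natDegree + 1),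
        (n : ℂ) ^ k * eval₂ (Int.castRingHom ℂ) (fun v => alph A v n) (g.coeff k)) ∧
      ∀ n, IsPrimePow n → ¬ Good N n → c n = 0 :=
  (hc.rep fun i => Rep.fam wt A i (h i) (h0 i)).poly

end Pool.Agent.HW
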