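import Pool.Agent.Helper29.Zeta.Poly

/-!
# Approximation of Euler products

If `n ^ j * c n = a n - b n` up to `O(n ^ (j - k))` at all prime powers, then
`exp (D c s) * exp (D b (s + j)) = E s * exp (D a (s + j))` with `E` analytic and without zeros
on `1 - k < Re s`.
-/

set_option autoImplicit false

open Complex
open Pool.Agent.Helper29.Zeta

namespace Pool.Agent.HW

/-- analyticity of `D u` from a bound with a real exponent -/
lemma D_analytic_of_rpow {u : ℕ → ℂ} {C θ : ℝ} (hC : 0 ≤ C)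
    (h : ∀ n : ℕ, IsPrimePow n → ‖u n‖ ≤ C * (n : ℝ) ^ θ) :
    AnalyticOnNhd ℂ (D u) {s | θ + 1 < s.re} := by
  have hco : ∀ n : ℕ, n ≠ 0 → ‖coef u n‖ ≤ C * (n : ℝ) ^ θ := by
    intro n _
    by_cases hn : IsPrimePow n
    · calc ‖coef u n‖ = ‖u n‖ * ‖((ArithmeticFunction.vonMangoldt n / Real.log n : ℝ) : ℂ)‖ :=
            norm_mul _ _
        _ ≤ ‖u n‖ * 1 := by gcongr; exact norm_ratio_le n
        _ = ‖u n‖ := mul_one _
        _ ≤ _ := h n hn
    · rw [coef_of_not hn, norm_zero]; positivity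
  have habs : LSeries.abscissaOfAbsConv (coef u) ≤ ((θ + 1 : ℝ) : EReal) := by
    have := LSeries.abscissaOfAbsConv_le_of_le_const_mul_rpow (f := coef u) (x := θ) ⟨C, hco⟩
    exact_mod_cast this
  intro s hs
  refine LSeries_analyticOnNhd (coef u) s ?_
  refine lt_of_le_of_lt habs ?_
  exact_mod_cast hs

/-- **the approximation step** -/
theorem core_step {c a b : ℕ → ℂ} (hc : Growth c) (ha : Growth a) (hb : Growth b) (j : ℕ)
    {C θ : ℝ} (h : ∀ n : ℕ, IsPrimePow n → ‖(n : ℂ) ^ j * c n - (a n - b n)‖ ≤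
      C * (n : ℝ) ^ ((j : ℝ) + θ)) :
    ∃ E : ℂ → ℂ, AnalyticOnNhd ℂ E {s | θ + 1 < s.re} ∧ (∀ s : ℂ, E s ≠ 0) ∧
      ∃ σ : ℝ, ∀ s : ℂ, σ < s.re →
        exp (D c s) * exp (D b (s + j)) = E s * exp (D a (s + j)) := by
  set u : ℕ → ℂ := fun n => (n : ℂ) ^ j * c n - (a n - b n) with hu
  have hC : 0 ≤ |C| := abs_nonneg C
  have h' : ∀ n, IsPrimePow n → ‖u n‖ ≤ |C| * (n : ℝ) ^ ((j : ℝ) + θ) := by
    intro n hn
    refine (h n hn).trans ?_
    gcongr
    exact le_abs_self C
  have han := D_analytic_of_rpow hC h'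
  refine ⟨fun s => exp (D u (s + j)), ?_, fun s => exp_ne_zero _, ?_⟩
  · intro s hs
    have h1 : AnalyticAt ℂ (fun z : ℂ => D u (z + j)) s := by
      refine AnalyticAt.fun_comp (g := D u) (f := fun z : ℂ => z + j) ?_ (by fun_prop)
      refine han _ ?_
      simp only [Set.mem_ofPred_eq, add_re, natCast_re] at hs ⊢
      linarith
    exact h1.cexp
  · have hab : Growth (fun n => a n - b n) := ha.sub hb
    have hcj : Growth (fun n => (n : ℂ) ^ j * c n) := (Growth.id.pow j).mul hc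
    obtain ⟨x1, hx1⟩ := D_add ha hb.neg
    obtain ⟨x2, hx2⟩ := D_add hcj hab.neg
    refine ⟨max x1 x2, fun s hs => ?_⟩
    have hs1 : x1 < (s + j).re := by
      rw [add_re, natCast_re]
      have := (le_max_left x1 x2).trans_lt hs
      have hj : (0 : ℝ) ≤ j := Nat.cast_nonneg j
      linarith
    have hs2 : x2 < (s + j).re := by
      rw [add_re, natCast_re]
      have := (le_max_right x1 x2).trans_lt hs
      have hj : (0 : ℝ) ≤ j := Nat.cast_nonneg j
      linarith
    have e1 := hx1 _ hs1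
    have e2 := hx2 _ hs2
    rw [D_neg] at e1 e2
    have e3 : D u (s + j) = D (fun n => (n : ℂ) ^ j * c n + -(a n - b n)) (s + j) := by
      rw [hu]
      simp only [sub_eq_add_neg]
    have e4 : D (fun n => a n - b n) (s + j) = D (fun n => a n + -b n) (s + j) := by
      simp only [sub_eq_add_neg]
    rw [D_shift_pow] at e2
    have e5 : s + (j : ℂ) - j = s := by ring
    rw [e5, e4, e1] at e2
    show exp (D c s) * exp (D b (s + j)) = exp (D u (s + j)) * exp (D a (s + j))
    rw [e3, e2, ← exp_add, ← exp_add]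
    congr 1
    ring

end Pool.Agent.HW
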