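import Pool.Agent.Helper81.CP.Zet

/-!
# Counting functions of finitely generated rings and of schemes of finite type

`IsCount c`: `c n` is the number of homomorphisms from a finitely generated commutative ring to
the field with `n` elements, for all prime powers `n`.
-/

set_option autoImplicit false

open AlgebraicGeometry CategoryTheory TopologicalSpace
open Pool.Agent.Helper29.Zeta Pool.Agent.Helper81.CP
open scoped TensorProduct

namespace Pool.Agent.HW

/-- `c` counts the homomorphisms of a finitely generated ring to the finite fields -/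
def IsCount (c : ℕ → ℂ) : Prop :=
  ∃ (A : Type) (_ : CommRing A) (_ : Algebra.FiniteType ℤ A),
    ∀ n, IsPrimePow n → c n = (Nat.card (A →+* FF n) : ℂ)

lemma ft_of {A : Type} [CommRing A] (i : Algebra ℤ A) (h : @Algebra.FiniteType ℤ A _ _ i) :
    @Algebra.FiniteType ℤ A _ _ (Ring.toIntAlgebra A) := by
  have e : i = Ring.toIntAlgebra A := Subsingleton.elim _ _
  subst e
  exact h

lemma isCount_of (A : Type) [CommRing A] [Algebra.FiniteType ℤ A] :
    IsCount (fun n => (Nat.card (A →+* FF n) : ℂ)) :=
  ⟨A, inferInstance, inferInstance, fun _ _ => rfl⟩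

lemma IsCount.congr {c c' : ℕ → ℂ} (h : IsCount c) (hc : ∀ n, IsPrimePow n → c' n = c n) :
    IsCount c' := by
  obtain ⟨A, i1, i2, hA⟩ := h
  exact ⟨A, i1, i2, fun n hn => (hc n hn).trans (hA n hn)⟩

/-! ## Rings -/

lemma card_hom_prod (A B F : Type) [CommRing A] [CommRing B] [Field F] [Finite F]
    [Algebra.FiniteType ℤ A] [Algebra.FiniteType ℤ B] :
    Nat.card (A × B →+* F) = Nat.card (A →+* F) + Nat.card (B →+* F) := by
  have hA : Finite (A →+* F) := finite_ringHom A F
  have hB : Finite (B →+* F) := finite_ringHom B F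
  rw [← Nat.card_sum]
  symm
  refine Nat.card_congr (Equiv.ofBijective (Sum.elim
    (fun f : A →+* F => f.comp (RingHom.fst A B)) (fun g : B →+* F => g.comp (RingHom.snd A B)))
    ⟨?_, ?_⟩)
  · rintro (f | f) (g | g) h
    · congr 1
      ext a
      exact congrArg (fun φ : A × B →+* F => φ (a, 0)) h
    · exfalso
      have := congrArg (fun φ : A × B →+* F => φ (1, 0)) h
      simp at this
    · exfalso
      have := congrArg (fun φ : A × B →+* F => φ (1, 0)) h
      simp at this
    · congr 1
      ext a
      exact congrArg (fun φ : A × B →+* F => φ (0, a)) h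
  · intro φ
    have h1 : φ (1, 0) * φ (1, 0) = φ (1, 0) := by rw [← map_mul]; simp
    have h2 : φ (1, 0) + φ (0, 1) = 1 := by
      rw [← map_add, Prod.mk_add_mk, add_zero, zero_add, ← Prod.one_eq_mk, map_one]
    have h3 : φ (1, 0) = 0 ∨ φ (1, 0) = 1 := by
      have : φ (1, 0) * (φ (1, 0) - 1) = 0 := by rw [mul_sub, h1, mul_one, sub_self]
      rcases mul_eq_zero.1 this with h | h
      · exact Or.inl h
      · exact Or.inr (sub_eq_zero.1 h)
    rcases h3 with h3 | h3
    · have h4 : φ (0, 1) = 1 := by rw [h3, zero_add] at h2; exact h2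
      have h5 : ∀ a : A, φ (a, 0) = 0 := by
        intro a
        have : ((a, 0) : A × B) = (a, 0) * (1, 0) := by simp
        rw [this, map_mul, h3, mul_zero]
      let g : B →+* F :=
        { toFun := fun b => φ (0, b)
          map_one' := h4
          map_mul' := fun x y => by rw [← map_mul]; simp
          map_zero' := by rw [← Prod.zero_eq_mk, map_zero]
          map_add' := fun x y => by rw [← map_add]; simp }
      refine ⟨Sum.inr g, ?_⟩
      ext ⟨a, b⟩
      show φ (0, b) = φ (a, b)
      have : ((a, b) : A × B) = (a, 0) + (0, b) := by simp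
      rw [this, map_add, h5, zero_add]
    · have h4 : φ (0, 1) = 0 := by rw [h3] at h2; simpa using h2
      have h5 : ∀ b : B, φ (0, b) = 0 := by
        intro b
        have : ((0, b) : A × B) = (0, b) * (0, 1) := by simp
        rw [this, map_mul, h4, mul_zero]
      let g : A →+* F :=
        { toFun := fun b => φ (b, 0)
          map_one' := h3
          map_mul' := fun x y => by rw [← map_mul]; simp
          map_zero' := by rw [← Prod.zero_eq_mk, map_zero]
          map_add' := fun x y => by rw [← map_add]; simp }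
      refine ⟨Sum.inl g, ?_⟩
      ext ⟨a, b⟩
      show φ (a, 0) = φ (a, b)
      have : ((a, b) : A × B) = (a, 0) + (0, b) := by simp
      rw [this, map_add, h5, add_zero]

lemma card_hom_tensor (A B F : Type) [CommRing A] [CommRing B] [Field F] :
    Nat.card (A ⊗[ℤ] B →+* F) = Nat.card (A →+* F) * Nat.card (B →+* F) := by
  rw [← Nat.card_prod]
  refine Nat.card_congr
    { toFun := fun φ => (φ.comp (Algebra.TensorProduct.includeLeft (R := ℤ) (S := ℤ)
        (A := A) (B := B)).toRingHom, φ.comp (Algebra.TensorProduct.includeRight (R := ℤ)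
        (A := A) (B := B)).toRingHom)
      invFun := fun p => (Algebra.TensorProduct.lift p.1.toIntAlgHom p.2.toIntAlgHom
        (fun x y => Commute.all _ _)).toRingHom
      left_inv := fun φ => ?_
      right_inv := fun p => ?_ }
  · refine Algebra.TensorProduct.ringHom_ext ?_ ?_
    · ext a
      refine (Algebra.TensorProduct.lift_tmul _ _ (fun x y => Commute.all _ _) a 1).trans ?_
      show φ (a ⊗ₜ 1) * φ (1 ⊗ₜ 1) = φ (a ⊗ₜ 1)
      rw [← map_mul, Algebra.TensorProduct.tmul_mul_tmul, mul_one, mul_one]
    · ext b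
      refine (Algebra.TensorProduct.lift_tmul _ _ (fun x y => Commute.all _ _) 1 b).trans ?_
      show φ (1 ⊗ₜ 1) * φ (1 ⊗ₜ b) = φ (1 ⊗ₜ b)
      rw [← map_mul, Algebra.TensorProduct.tmul_mul_tmul, one_mul, one_mul]
  · refine Prod.ext ?_ ?_
    · ext a
      refine (Algebra.TensorProduct.lift_tmul _ _ (fun x y => Commute.all _ _) a 1).trans ?_
      show p.1 a * p.2 1 = p.1 a
      rw [map_one, mul_one]
    · ext b
      refine (Algebra.TensorProduct.lift_tmul _ _ (fun x y => Commute.all _ _) 1 b).trans ?_
      show p.1 1 * p.2 b = p.2 b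
      rw [map_one, one_mul]

instance finiteType_tensor (A B : Type) [CommRing A] [CommRing B] [Algebra.FiniteType ℤ A]
    [hB : Algebra.FiniteType ℤ B] :
    @Algebra.FiniteType ℤ (A ⊗[ℤ] B) _ _ (Ring.toIntAlgebra (A ⊗[ℤ] B)) := by
  have h1 : Algebra.FiniteType A (A ⊗[ℤ] B) := Algebra.FiniteType.baseChange A
  exact ft_of _ (Algebra.FiniteType.trans (inferInstance : Algebra.FiniteType ℤ A) h1)

instance finiteType_prod (A B : Type) [CommRing A] [CommRing B] [hA : Algebra.FiniteType ℤ A]
    [hB : Algebra.FiniteType ℤ B] :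
    @Algebra.FiniteType ℤ (A × B) _ _ (Ring.toIntAlgebra (A × B)) :=
  ft_of _ (Algebra.FiniteType.prod (R := ℤ) (A := A) (B := B))

instance finiteType_poly (A : Type) [CommRing A] [hA : Algebra.FiniteType ℤ A] :
    @Algebra.FiniteType ℤ (Polynomial A) _ _ (Ring.toIntAlgebra (Polynomial A)) := by
  have h1 : Algebra.FiniteType A (Polynomial A) := inferInstance
  exact ft_of _ (Algebra.FiniteType.trans hA h1)

instance finiteType_away (A : Type) [CommRing A] [hA : Algebra.FiniteType ℤ A] (a : A) :
    @Algebra.FiniteType ℤ (Localization.Away a) _ _ (Ring.toIntAlgebra (Localization.Away a)) := by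
  have h1 : Algebra.FiniteType A (Localization.Away a) :=
    IsLocalization.finiteType_of_monoid_fg (Submonoid.powers a) _
  exact ft_of _ (Algebra.FiniteType.trans hA h1)

instance finiteType_quot (A : Type) [CommRing A] [hA : Algebra.FiniteType ℤ A] (I : Ideal A) :
    @Algebra.FiniteType ℤ (A ⧸ I) _ _ (Ring.toIntAlgebra (A ⧸ I)) :=
  ft_of _ (Algebra.FiniteType.of_surjective (Ideal.Quotient.mkₐ ℤ I)
    (Ideal.Quotient.mkₐ_surjective ℤ I))

lemma card_hom_poly (A F : Type) [CommRing A] [Field F] :
    Nat.card (Polynomial A →+* F) = Nat.card F * Nat.card (A →+* F) := by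
  rw [← Nat.card_prod]
  refine Nat.card_congr
    { toFun := fun φ => (φ Polynomial.X, φ.comp Polynomial.C)
      invFun := fun p => Polynomial.eval₂RingHom p.2 p.1
      left_inv := fun φ => ?_
      right_inv := fun p => ?_ }
  · refine Polynomial.ringHom_ext' ?_ ?_
    · ext a; simp
    · simp
  · refine Prod.ext ?_ ?_
    · simp
    · ext a
      simp

lemma card_hom_away (N : ℕ) {n : ℕ} (hn : IsPrimePow n) :
    Nat.card (Localization.Away (N : ℤ) →+* FF n) = if n.Coprime N then 1 else 0 := by
  have hz : (n : FF n) = 0 := by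
    have := Fintype.ofFinite (FF n)
    have h1 := FiniteField.cast_card_eq_zero (FF n)
    rwa [← Nat.card_eq_fintype_card, card_FF hn] at h1
  split_ifs with h
  · have hu : IsUnit (Int.castRingHom (FF n) (N : ℤ)) := by
      have h1 : IsCoprime (n : ℤ) (N : ℤ) := Nat.isCoprime_iff_coprime.2 h
      obtain ⟨a, b, hab⟩ := h1
      have h2 : (b : FF n) * (N : FF n) = 1 := by
        have h3 := congrArg (Int.cast : ℤ → FF n) hab
        push_cast at h3
        rwa [hz, mul_zero, zero_add] at h3
      refine IsUnit.of_mul_eq_one (b : FF n) ?_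
      rw [mul_comm]
      simpa using h2
    have : Unique (Localization.Away (N : ℤ) →+* FF n) :=
      ⟨⟨IsLocalization.Away.lift (N : ℤ) hu⟩, fun φ =>
        IsLocalization.ringHom_ext (Submonoid.powers (N : ℤ)) (RingHom.ext_int _ _)⟩
    exact Nat.card_unique
  · have : IsEmpty (Localization.Away (N : ℤ) →+* FF n) := by
      refine ⟨fun φ => ?_⟩
      have h1 : IsUnit (φ (algebraMap ℤ (Localization.Away (N : ℤ)) (N : ℤ))) :=
        (IsLocalization.Away.algebraMap_isUnit (N : ℤ)).map φ
      have h2 : φ (algebraMap ℤ (Localization.Away (N : ℤ)) (N : ℤ)) = (N : FF n) := by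
        have : φ.comp (algebraMap ℤ (Localization.Away (N : ℤ))) = Int.castRingHom (FF n) :=
          RingHom.ext_int _ _
        have h3 := congrArg (fun ψ : ℤ →+* FF n => ψ (N : ℤ)) this
        simp at h3
        simp
      rw [h2] at h1
      obtain ⟨p, hp, hpn, hpN⟩ := Nat.Prime.not_coprime_iff_dvd.1 h
      obtain ⟨q, d, hq, hd, rfl⟩ := hn
      have hpq : p = q :=
        (Nat.prime_dvd_prime_iff_eq hp hq.nat_prime).1 (hp.dvd_of_dvd_pow hpn)
      subst hpq
      have h4 : (p : FF (p ^ d)) = 0 := by
        have h5 : (p : FF (p ^ d)) ^ d = 0 := by exact_mod_cast hz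
        exact pow_eq_zero_iff hd.ne' |>.1 h5
      obtain ⟨m, rfl⟩ := hpN
      rw [Nat.cast_mul, h4, zero_mul] at h1
      exact not_isUnit_zero h1
    exact Nat.card_of_isEmpty

/-! ## Closure properties of counting functions -/

lemma IsCount.zero : IsCount (fun _ => 0) := by
  refine (isCount_of (ZMod 1)).congr fun n hn => ?_
  have : IsEmpty (ZMod 1 →+* FF n) := by
    refine ⟨fun φ => ?_⟩
    have h1 := φ.map_one
    have h2 : (1 : ZMod 1) = 0 := Subsingleton.elim _ _
    rw [h2, map_zero] at h1
    exact zero_ne_one h1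
  rw [Nat.card_of_isEmpty]
  simp

lemma IsCount.one : IsCount (fun _ => 1) := by
  refine (isCount_of ℤ).congr fun n hn => ?_
  have : Unique (ℤ →+* FF n) := ⟨⟨Int.castRingHom _⟩, fun φ => RingHom.ext_int _ _⟩
  rw [Nat.card_unique]
  simp

lemma IsCount.add {c c' : ℕ → ℂ} (h : IsCount c) (h' : IsCount c') :
    IsCount (fun n => c n + c' n) := by
  obtain ⟨A, i1, i2, hA⟩ := h
  obtain ⟨B, j1, j2, hB⟩ := h'
  refine ⟨A × B, inferInstance, finiteType_prod A B, fun n hn => ?_⟩
  show c n + c' n = _
  rw [hA n hn, hB n hn, card_hom_prod A B (FF n)]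
  push_cast
  rfl

lemma IsCount.mul {c c' : ℕ → ℂ} (h : IsCount c) (h' : IsCount c') :
    IsCount (fun n => c n * c' n) := by
  obtain ⟨A, i1, i2, hA⟩ := h
  obtain ⟨B, j1, j2, hB⟩ := h'
  refine ⟨A ⊗[ℤ] B, inferInstance, finiteType_tensor A B, fun n hn => ?_⟩
  show c n * c' n = _
  rw [hA n hn, hB n hn, card_hom_tensor A B (FF n)]
  push_cast
  rfl

lemma IsCount.q : IsCount (fun n => (n : ℂ)) := by
  refine (isCount_of (Polynomial ℤ)).congr fun n hn => ?_
  have : Unique (ℤ →+* FF n) := ⟨⟨Int.castRingHom _⟩, fun φ => RingHom.ext_int _ _⟩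
  rw [card_hom_poly ℤ (FF n), card_FF hn, Nat.card_unique, mul_one]

lemma IsCount.coprime (N : ℕ) : IsCount (fun n => if n.Coprime N then 1 else 0) := by
  refine (isCount_of (Localization.Away (N : ℤ))).congr fun n hn => ?_
  rw [card_hom_away N hn]
  split_ifs <;> simp

lemma IsCount.pow {c : ℕ → ℂ} (h : IsCount c) (j : ℕ) : IsCount (fun n => c n ^ j) := by
  induction j with
  | zero => simpa using IsCount.one
  | succ j ih =>
    refine (ih.mul h).congr fun n _ => ?_
    rw [pow_succ]

lemma IsCount.natCast (m : ℕ) : IsCount (fun _ => (m : ℂ)) := by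
  induction m with
  | zero => simpa using IsCount.zero
  | succ j ih =>
    refine (ih.add IsCount.one).congr fun n _ => ?_
    push_cast
    rfl

lemma IsCount.sum {ι : Type} (s : Finset ι) (c : ι → ℕ → ℂ) (h : ∀ i ∈ s, IsCount (c i)) :
    IsCount (fun n => ∑ i ∈ s, c i n) := by
  classical
  induction s using Finset.induction_on with
  | empty => simpa using IsCount.zero
  | insert a s ha ih =>
    refine ((h a (Finset.mem_insert_self a s)).add
      (ih fun i hi => h i (Finset.mem_insert_of_mem hi))).congr fun n _ => ?_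
    rw [Finset.sum_insert ha]

lemma IsCount.prod {ι : Type} (s : Finset ι) (c : ι → ℕ → ℂ) (h : ∀ i ∈ s, IsCount (c i)) :
    IsCount (fun n => ∏ i ∈ s, c i n) := by
  classical
  induction s using Finset.induction_on with
  | empty => simpa using IsCount.one
  | insert a s ha ih =>
    refine ((h a (Finset.mem_insert_self a s)).mul
      (ih fun i hi => h i (Finset.mem_insert_of_mem hi))).congr fun n _ => ?_
    rw [Finset.prod_insert ha]

/-! ## Schemes -/

lemma isCount_cnt (A : Type) [CommRing A] [hA : Algebra.FiniteType ℤ A] (I : Ideal A) :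
    IsCount (fun n => (cnt A I n : ℂ)) := by
  refine (isCount_of (A ⧸ I)).congr fun n _ => ?_
  unfold cnt
  rw [Complex.ofReal_natCast]
  congr 1
  refine Nat.card_congr
    { toFun := fun φ => Ideal.Quotient.lift I φ.1 (fun a ha => φ.2 ha)
      invFun := fun φ => ⟨φ.comp (Ideal.Quotient.mk I), fun a ha => by
        rw [RingHom.mem_ker, RingHom.comp_apply, Ideal.Quotient.eq_zero_iff_mem.2 ha, map_zero]⟩
      left_inv := fun φ => ?_
      right_inv := fun φ => ?_ }
  · apply Subtype.ext
    ext a
    simp
  · refine Ideal.Quotient.ringHom_ext ?_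
    ext a
    simp

/-- the closed points of a scheme of finite type are counted by the homomorphisms of a finitely
generated ring -/
lemma exists_isCount {X : Scheme.{0}} (hX : IsFT X) :
    ∃ c : ℕ → ℝ, IsCount (fun n => (c n : ℂ)) ∧ HasCount (Set.univ : Set X) c := by
  obtain ⟨f, hf, hq⟩ := hX
  have hJ : JacobsonSpace X := LocallyOfFiniteType.jacobsonSpace f
  have hcomp : CompactSpace X := QuasiCompact.compactSpace_of_compactSpace f
  have key : ∃ c : ℕ → ℝ, IsCount (fun n => (c n : ℂ)) ∧
      HasCount ((⊤ : X.Opens) : Set X) c := by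
    refine compact_open_induction_on
      (P := fun S : X.Opens => ∃ c : ℕ → ℝ, IsCount (fun n => (c n : ℂ)) ∧
        HasCount (S : Set X) c) ⊤ isCompact_univ ?_ ?_
    · exact ⟨fun _ => 0, by simpa using IsCount.zero, HasCount.empty⟩
    · rintro S _ U ⟨c, hg, hc⟩
      have hUimm : IsOpenImmersion U.2.fromSpec := U.2.isOpenImmersion_fromSpec
      have hfg : Algebra.FiniteType ℤ Γ(X, U) := finiteType_of_imm f U.2.fromSpec
      have hZ : IsClosed (U.2.fromSpec ⁻¹' ((S : Set X)ᶜ)) :=
        S.isOpen.isClosed_compl.preimage U.2.fromSpec.continuous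
      have h1 := hasCount_stratum U.2.fromSpec ((S : Set X)ᶜ) hZ
      rw [U.2.range_fromSpec] at h1
      have hd : Disjoint (S : Set X) ((U : Set X) ∩ (S : Set X)ᶜ) := by
        rw [Set.disjoint_left]; intro x hx hx'; exact hx'.2 hx
      have h2 := hc.union h1 hd
      have e : (S : Set X) ∪ ((U : Set X) ∩ (S : Set X)ᶜ) = ((S ⊔ U : X.Opens) : Set X) := by
        ext x
        simp only [Set.mem_union, Set.mem_inter_iff, Set.mem_compl_iff,
          TopologicalSpace.Opens.coe_sup]
        tauto
      rw [e] at h2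
      refine ⟨_, ?_, h2⟩
      simpa using hg.add (isCount_cnt Γ(X, U) _)
  exact key

/-- the number of points of `X` over the field with `n` elements -/
noncomputable def ptCount (X : Scheme.{0}) (n : ℕ) : ℕ :=
  Nat.card (Spec (CommRingCat.of (FF n)) ⟶ X)

/-- a point with a finite residue field is closed -/
lemma isClosed_of_finite {X : Scheme.{0}} [JacobsonSpace X] (x : X)
    (hx : Finite (X.residueField x)) : IsClosed ({x} : Set X) := by
  obtain ⟨A, j, hj, ⟨y, rfl⟩, _⟩ :=
    Scheme.exists_affine_mem_range_and_range_subset (TopologicalSpace.Opens.mem_top x)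
  have h1 := j.isOpenEmbedding.preimage_closedPoints
  have h2 : j y ∈ closedPoints X ↔ y ∈ closedPoints (Spec A) := by
    rw [← h1]; rfl
  refine h2.2 ((PrimeSpectrum.isClosed_singleton_iff_isMaximal _).2 ?_)
  have e1 : X.residueField (j y) ≅ (Spec A).residueField y := asIso (j.residueFieldMap y)
  have e2 : (Spec A).residueField y ≅ .of (y : PrimeSpectrum A).asIdeal.ResidueField :=
    Scheme.Spec.residueFieldIso A y
  have h3 : Finite (y : PrimeSpectrum A).asIdeal.ResidueField :=
    Finite.of_equiv _ (e1 ≪≫ e2).commRingCatIsoToRingEquiv.toEquiv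
  have h4 : Finite (A ⧸ (y : PrimeSpectrum A).asIdeal) :=
    Finite.of_injective _
      (Ideal.injective_algebraMap_quotient_residueField (y : PrimeSpectrum A).asIdeal)
  exact Ideal.Quotient.maximal_of_isField _ (Finite.isField_of_domain _)

/-- the closed points of a scheme of finite type are counted by its points over finite fields -/
lemma hasCount_ptCount {X : Scheme.{0}} (hX : IsFT X) :
    HasCount (Set.univ : Set X) (fun n => (ptCount X n : ℝ)) := by
  intro n hn
  obtain ⟨c, _, hc⟩ := exists_isCount hX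
  have hc' := hc n hn
  obtain ⟨f, hf, hq⟩ := hX
  have hJ : JacobsonSpace X := LocallyOfFiniteType.jacobsonSpace f
  let P := clPts (Set.univ : Set X)
  let m : P → ℕ := fun x => mult (Nat.card (X.residueField x.1)) n
  have hm : HasSum (fun x : P => (m x : ℝ)) (c n) := hc'
  -- the finite residue fields
  have hfin : ∀ x : P, Finite (X.residueField x.1) := fun x =>
    (Nat.finite_of_card_ne_zero (isPrimePow_card f x.1 x.2.2).ne_zero)
  have hcard : ∀ x : P, Nat.card (X.residueField x.1 →+* FF n) = m x := by
    intro x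
    have := hfin x
    rw [card_ringHom (X.residueField x.1) (FF n), card_FF hn]
  have hfinhom : ∀ x : P, Finite (X.residueField x.1 →+* FF n) := by
    intro x
    have := hfin x
    exact Finite.of_injective (fun φ : X.residueField x.1 →+* FF n => (φ : _ → _))
      DFunLike.coe_injective
  -- finite support
  have hsupp : Finite {x : P // m x ≠ 0} := by
    have h1 := hm.summable.tendsto_cofinite_zero
    have h2 : ∀ᶠ x : P in Filter.cofinite, (m x : ℝ) < 1 :=
      h1.eventually (gt_mem_nhds one_pos)
    rw [Filter.eventually_cofinite] at h2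
    refine Set.Finite.subset h2 fun x hx => ?_
    have h3 : 1 ≤ m x := Nat.one_le_iff_ne_zero.2 hx
    simp only [Set.mem_ofPred_eq, not_lt]
    exact_mod_cast h3
  -- the points
  let T := Spec (CommRingCat.of (FF n)) ⟶ X
  let T' := Σ x : P, (X.residueField x.1 →+* FF n)
  have hT' : Finite T' := by
    let g : T' → Σ x : {x : P // m x ≠ 0}, (X.residueField x.1.1 →+* FF n) := fun t =>
      ⟨⟨t.1, by
        rw [← hcard t.1]
        have := hfinhom t.1
        have : Nonempty (X.residueField t.1.1 →+* FF n) := ⟨t.2⟩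
        exact Nat.card_pos.ne'⟩, t.2⟩
    have hg : Function.Injective g := by
      rintro ⟨x, φ⟩ ⟨x', φ'⟩ h
      simp only [g, Sigma.mk.injEq, Subtype.mk.injEq] at h
      obtain ⟨rfl, h⟩ := h
      simp only [heq_eq_eq] at h
      rw [h]
    exact Finite.of_injective g hg
  let e : T ≃ T' := (Scheme.SpecToEquivOfField (FF n) X).trans
    { toFun := fun t => ⟨⟨t.1, trivial, isClosed_of_finite t.1
        (Finite.of_injective t.2.hom t.2.hom.injective)⟩, t.2.hom⟩
      invFun := fun t => ⟨t.1.1, CommRingCat.ofHom t.2⟩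
      left_inv := fun t => rfl
      right_inv := fun t => rfl }
  have h1 : HasSum (fun x : P => (Nat.card {t : T' // t.1 = x} : ℝ)) (Nat.card T' : ℝ) :=
    hasSum_fiber (fun t : T' => t.1)
  have h2 : (ptCount X n : ℝ) = (Nat.card T' : ℝ) := by
    unfold ptCount
    rw [Nat.card_congr e]
  show HasSum _ (ptCount X n : ℝ)
  rw [h2]
  have h3 : ∀ x : P, Nat.card {t : T' // t.1 = x} = m x := by
    intro x
    rw [← hcard x]
    exact Nat.card_congr
      { toFun := fun t => t.2 ▸ t.1.2
        invFun := fun φ => ⟨⟨x, φ⟩, rfl⟩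
        left_inv := by rintro ⟨⟨y, φ⟩, rfl⟩; rfl
        right_inv := fun φ => rfl }
  simp only [h3] at h1
  exact h1

/-- the number of points over finite fields is a counting function -/
lemma isCount_ptCount {X : Scheme.{0}} (hX : IsFT X) : IsCount (fun n => (ptCount X n : ℂ)) := by
  obtain ⟨c, h1, h2⟩ := exists_isCount hX
  refine h1.congr fun n hn => ?_
  have h3 := (hasCount_ptCount hX n hn).unique (h2 n hn)
  have h3' : ((ptCount X n : ℝ) : ℂ) = (c n : ℂ) := congrArg _ h3
  rw [← h3', Complex.ofReal_natCast]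

end Pool.Agent.HW
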