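import Pool.Agent.Helper29.Zeta.Ana

/-!
# Euler products of degree bounded families

For `B p t` of polynomial size and `m (p ^ k) = ∑ t, z t * B p t ^ k` (`p` prime, not dividing
`N`) the Euler product of the `∏ t, (1 - B p t p ^ (-s)) ^ (- z t)` is `exp (D m s)`.
-/

set_option autoImplicit false

open Complex
open ArithmeticFunction (vonMangoldt_apply)
open scoped ArithmeticFunction.vonMangoldt
open Pool.Agent.Helper29.Zeta

namespace Pool.Agent.HW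

/-- the primes which do not divide `N` -/
abbrev GoodPrime (N : ℕ) : Type := {p : ℕ // p.Prime ∧ ¬ p ∣ N}

lemma growth_weil (N : ℕ) {T : Type} [Fintype T] (z : T → ℤ) (B : ℕ → T → ℂ) (a : ℕ)
    (hB : ∀ p : ℕ, p.Prime → ¬ p ∣ N → ∀ t, ‖B p t‖ ≤ (p : ℝ) ^ a) (m : ℕ → ℂ)
    (hm : ∀ p k : ℕ, p.Prime → 0 < k →
      m (p ^ k) = if p ∣ N then 0 else ∑ t, (z t : ℂ) * B p t ^ k) : Growth m := by
  refine ⟨∑ t, ‖(z t : ℂ)‖, a, fun n hn => ?_⟩
  obtain ⟨p, k, hp, hk, rfl⟩ := hn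
  have hp' : p.Prime := hp.nat_prime
  rw [hm p k hp' hk]
  split_ifs with h
  · rw [norm_zero]; positivity
  · refine (norm_sum_le _ _).trans ?_
    rw [Finset.sum_mul]
    refine Finset.sum_le_sum fun t _ => ?_
    rw [norm_mul, norm_pow]
    refine mul_le_mul_of_nonneg_left ?_ (norm_nonneg _)
    push_cast
    rw [← pow_mul, mul_comm k a, pow_mul]
    exact pow_le_pow_left₀ (norm_nonneg _) (hB p hp' h t) k

/-- one Euler factor -/
lemma hasSum_factor {p : ℕ} (hp : p.Prime) {T : Type} [Fintype T] (z : T → ℤ) (B : T → ℂ)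
    {s : ℂ} (hB : ∀ t, ‖B t * (p : ℂ) ^ (-s)‖ < 1) (m : ℕ → ℂ)
    (hm : ∀ k : ℕ, 0 < k → m (p ^ k) = ∑ t, (z t : ℂ) * B t ^ k) :
    HasSum (fun k : ℕ => LSeries.term (coef m) s (p ^ (k + 1)))
      (∑ t, (z t : ℂ) * -Complex.log (1 - B t * (p : ℂ) ^ (-s))) := by
  have h1 : ∀ t, HasSum (fun k : ℕ => (z t : ℂ) * ((B t * (p : ℂ) ^ (-s)) ^ (k + 1) / ((k + 1 : ℕ) : ℂ)))
      ((z t : ℂ) * -Complex.log (1 - B t * (p : ℂ) ^ (-s))) := by
    intro t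
    refine HasSum.mul_left _ ?_
    have h2 := Complex.hasSum_taylorSeries_neg_log (hB t)
    have h3 := (hasSum_nat_add_iff' (f := fun n : ℕ => (B t * (p : ℂ) ^ (-s)) ^ n / (n : ℂ)) 1).2 h2
    simpa using h3
  have h4 := hasSum_sum (s := Finset.univ) (fun t _ => h1 t)
  have e : (fun k : ℕ => LSeries.term (coef m) s (p ^ (k + 1))) = fun k : ℕ =>
      ∑ t, (z t : ℂ) * ((B t * (p : ℂ) ^ (-s)) ^ (k + 1) / ((k + 1 : ℕ) : ℂ)) := by
    funext k
    have hlp : Real.log p ≠ 0 := (Real.log_pos (by exact_mod_cast hp.one_lt)).ne'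
    have hk0 : ((k : ℝ) + 1) ≠ 0 := by positivity
    have h5 : Λ (p ^ (k + 1)) = Real.log p := by
      rw [ArithmeticFunction.vonMangoldt_apply_pow (Nat.succ_ne_zero k),
        ArithmeticFunction.vonMangoldt_apply_prime hp]
    have h6 : Real.log ((p ^ (k + 1) : ℕ) : ℝ) = (k + 1) * Real.log p := by
      push_cast
      rw [Real.log_pow]
      push_cast
      rfl
    have h7 : (((Λ (p ^ (k + 1)) / Real.log ((p ^ (k + 1) : ℕ) : ℝ) : ℝ)) : ℂ) =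
        1 / ((k + 1 : ℕ) : ℂ) := by
      rw [h5, h6]
      have : Real.log p / ((k + 1) * Real.log p) = 1 / ((k : ℝ) + 1) := by
        field_simp
      rw [this]
      push_cast
      rfl
    have h8 : (((p ^ (k + 1) : ℕ) : ℂ) ^ s)⁻¹ = ((p : ℂ) ^ (-s)) ^ (k + 1) := by
      rw [← Complex.cpow_neg]
      push_cast
      rw [← Complex.natCast_cpow_natCast_mul p (k + 1) (-s), ← Complex.cpow_nat_mul]
    rw [LSeries.term_of_ne_zero (pow_pos hp.pos _).ne', div_eq_mul_inv, h8, coef, h7,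
      hm (k + 1) (Nat.succ_pos k), Finset.sum_mul, Finset.sum_mul]
    refine Finset.sum_congr rfl fun t _ => ?_
    rw [mul_pow]
    ring
  rw [e]
  exact h4

theorem euler_weil (N : ℕ) {T : Type} [Fintype T] (z : T → ℤ) (B : ℕ → T → ℂ) (a : ℕ)
    (hB : ∀ p : ℕ, p.Prime → ¬ p ∣ N → ∀ t, ‖B p t‖ ≤ (p : ℝ) ^ a) (m : ℕ → ℂ)
    (hm : ∀ p k : ℕ, p.Prime → 0 < k →
      m (p ^ k) = if p ∣ N then 0 else ∑ t, (z t : ℂ) * B p t ^ k) :
    ∃ σ : ℝ, ∀ s : ℂ, σ < s.re →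
      HasProd (fun p : GoodPrime N => ∏ t, (1 - B p.1 t * (p.1 : ℂ) ^ (-s)) ^ (- z t))
        (exp (D m s)) := by
  have hg := growth_weil N z B a hB m hm
  obtain ⟨σ, hσ⟩ := hg.summable
  refine ⟨max σ a, fun s hs => ?_⟩
  have hs1 : σ < s.re := (max_lt_iff.mp hs).1
  have hs0 : (a : ℝ) < s.re := (max_lt_iff.mp hs).2
  have hsum : HasSum (LSeries.term (coef m) s) (D m s) := (hσ s hs1).hasSum
  -- reindex by the powers of the good primes
  let i : GoodPrime N × ℕ → ℕ := fun x => x.1.1 ^ (x.2 + 1)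
  have hi : Function.Injective i := by
    rintro ⟨⟨p, hp, hpN⟩, k⟩ ⟨⟨q, hq, hqN⟩, l⟩ h
    have h1 : Nat.Primes.prodNatEquiv (⟨p, hp⟩, k) = Nat.Primes.prodNatEquiv (⟨q, hq⟩, l) := by
      apply Subtype.ext
      simpa [Nat.Primes.prodNatEquiv_apply] using h
    have h2 := Nat.Primes.prodNatEquiv.injective h1
    rw [Prod.mk.injEq] at h2
    obtain ⟨h3, rfl⟩ := h2
    have h4 : p = q := congrArg Subtype.val h3
    subst h4
    rfl
  have h0 : ∀ n, n ∉ Set.range i → LSeries.term (coef m) s n = 0 := by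
    intro n hn
    rcases Nat.eq_zero_or_pos n with rfl | hn0
    · simp
    rw [LSeries.term_of_ne_zero hn0.ne']
    by_cases hpp : IsPrimePow n
    · obtain ⟨p, k, hp, hk, rfl⟩ := hpp
      have hp' : p.Prime := hp.nat_prime
      have hpN : p ∣ N := by
        by_contra hpN
        exact hn ⟨(⟨p, hp', hpN⟩, k - 1), by
          show p ^ (k - 1 + 1) = p ^ k
          rw [Nat.sub_add_cancel hk]⟩
      simp only [coef]
      rw [hm p k hp' hk, if_pos hpN]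
      simp
    · rw [coef_of_not hpp, zero_div]
  have h1 : HasSum (fun x : GoodPrime N × ℕ => LSeries.term (coef m) s (i x)) (D m s) :=
    (hi.hasSum_iff h0).2 hsum
  have hz : ∀ (p : GoodPrime N) (t : T), ‖B p.1 t * (p.1 : ℂ) ^ (-s)‖ < 1 := by
    intro p t
    have hp1 : (1 : ℝ) < p.1 := by exact_mod_cast p.2.1.one_lt
    rw [norm_mul, Complex.norm_natCast_cpow_of_pos p.2.1.pos, Complex.neg_re]
    calc ‖B p.1 t‖ * (p.1 : ℝ) ^ (-s.re) ≤ (p.1 : ℝ) ^ a * (p.1 : ℝ) ^ (-s.re) := by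
          refine mul_le_mul_of_nonneg_right (hB p.1 p.2.1 p.2.2 t) ?_
          positivity
      _ = (p.1 : ℝ) ^ ((a : ℝ) + -s.re) := by
          rw [Real.rpow_add (by linarith), Real.rpow_natCast]
      _ < 1 := Real.rpow_lt_one_of_one_lt_of_neg hp1 (by linarith)
  have h2 : HasSum (fun p : GoodPrime N =>
      ∑ t, (z t : ℂ) * -Complex.log (1 - B p.1 t * (p.1 : ℂ) ^ (-s))) (D m s) := by
    refine h1.prod_fiberwise fun p => ?_
    refine hasSum_factor p.2.1 z (B p.1) (hz p) m fun k hk => ?_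
    rw [hm p.1 k p.2.1 hk, if_neg p.2.2]
  have h3 := h2.cexp
  have e : (fun p : GoodPrime N => ∏ t, (1 - B p.1 t * (p.1 : ℂ) ^ (-s)) ^ (- z t)) =
      cexp ∘ fun p : GoodPrime N =>
        ∑ t, (z t : ℂ) * -Complex.log (1 - B p.1 t * (p.1 : ℂ) ^ (-s)) := by
    funext p
    rw [Function.comp_apply, Complex.exp_sum]
    refine Finset.prod_congr rfl fun t _ => ?_
    have hne : (1 - B p.1 t * (p.1 : ℂ) ^ (-s)) ≠ 0 := by
      intro h
      have h4 := hz p t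
      rw [← sub_eq_zero.1 h, norm_one] at h4
      exact lt_irrefl _ h4
    have h5 : (z t : ℂ) * -Complex.log (1 - B p.1 t * (p.1 : ℂ) ^ (-s)) =
        ((- z t : ℤ) : ℂ) * Complex.log (1 - B p.1 t * (p.1 : ℂ) ^ (-s)) := by
      push_cast
      ring
    rw [h5, Complex.exp_int_mul, Complex.exp_log hne]
  rw [e]
  exact h3

/-- The Euler product of the blocks `∏ t, (1 - B p t p ^ (-s))⁻¹`. -/
theorem euler_block (N : ℕ) {T : Type} [Fintype T] (B : ℕ → T → ℂ) (a : ℕ)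
    (hB : ∀ p : ℕ, p.Prime → ¬ p ∣ N → ∀ t, ‖B p t‖ ≤ (p : ℝ) ^ a) (m : ℕ → ℂ)
    (hm : ∀ p k : ℕ, p.Prime → 0 < k →
      m (p ^ k) = if p ∣ N then 0 else ∑ t, B p t ^ k) :
    ∃ σ : ℝ, ∀ s : ℂ, σ < s.re →
      HasProd (fun p : GoodPrime N => ∏ t, (1 - B p.1 t * (p.1 : ℂ) ^ (-s))⁻¹)
        (exp (D m s)) := by
  obtain ⟨σ, hσ⟩ := euler_weil N (fun _ => 1) B a hB m (by
    intro p k hp hk
    rw [hm p k hp hk]
    simp)
  refine ⟨σ, fun s hs => ?_⟩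
  have h := hσ s hs
  simpa using h

theorem euler_weil_tprod (N : ℕ) {T : Type} [Fintype T] (z : T → ℤ) (B : ℕ → T → ℂ) (a : ℕ)
    (hB : ∀ p : ℕ, p.Prime → ¬ p ∣ N → ∀ t, ‖B p t‖ ≤ (p : ℝ) ^ a) (m : ℕ → ℂ)
    (hm : ∀ p k : ℕ, p.Prime → 0 < k →
      m (p ^ k) = if p ∣ N then 0 else ∑ t, (z t : ℂ) * B p t ^ k) :
    ∃ σ : ℝ, ∀ s : ℂ, σ < s.re →
      ∏' p : GoodPrime N, ∏ t, (1 - B p.1 t * (p.1 : ℂ) ^ (-s)) ^ (- z t) = exp (D m s) := by
  obtain ⟨σ, hσ⟩ := euler_weil N z B a hB m hm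
  exact ⟨σ, fun s hs => (hσ s hs).tprod_eq⟩

theorem euler_block_tprod (N : ℕ) {T : Type} [Fintype T] (B : ℕ → T → ℂ) (a : ℕ)
    (hB : ∀ p : ℕ, p.Prime → ¬ p ∣ N → ∀ t, ‖B p t‖ ≤ (p : ℝ) ^ a) (m : ℕ → ℂ)
    (hm : ∀ p k : ℕ, p.Prime → 0 < k →
      m (p ^ k) = if p ∣ N then 0 else ∑ t, B p t ^ k) :
    ∃ σ : ℝ, ∀ s : ℂ, σ < s.re →
      ∏' p : GoodPrime N, ∏ t, (1 - B p.1 t * (p.1 : ℂ) ^ (-s))⁻¹ = exp (D m s) := by
  obtain ⟨σ, hσ⟩ := euler_block N B a hB m hm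
  exact ⟨σ, fun s hs => (hσ s hs).tprod_eq⟩

end Pool.Agent.HW
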