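import Mathlib

/-!
# Points over a finite field as the points over an algebraic closure fixed by Frobenius
-/

set_option autoImplicit false

open Polynomial Function

namespace Pool.Agent.HW

section emb

variable {L : Type*} [Field L] [Finite L] {Ω : Type*} [Field Ω]

lemma mem_range_of_pow_card (i : L →+* Ω) {x : Ω} (hx : x ^ Nat.card L = x) :
    x ∈ i.range := by
  classical
  cases nonempty_fintype L
  rw [Nat.card_eq_fintype_card] at hx
  have hq : 1 < Fintype.card L := Fintype.one_lt_card
  let f : Polynomial Ω := X ^ Fintype.card L - X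
  have hf0 : f ≠ 0 := FiniteField.X_pow_card_sub_X_ne_zero Ω hq
  have hfd : f.natDegree = Fintype.card L := FiniteField.X_pow_card_sub_X_natDegree_eq Ω hq
  let S : Finset Ω := Finset.univ.image i
  have hS : S ⊆ f.roots.toFinset := by
    intro z hz
    obtain ⟨a, -, rfl⟩ := Finset.mem_image.1 hz
    rw [Multiset.mem_toFinset, mem_roots hf0, IsRoot.def, eval_sub, eval_pow, eval_X,
      ← map_pow, FiniteField.pow_card, sub_self]
  have hSc : S.card = Fintype.card L := by
    rw [Finset.card_image_of_injective _ i.injective, Finset.card_univ]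
  have hle : f.roots.toFinset.card ≤ S.card := by
    rw [hSc]
    calc f.roots.toFinset.card ≤ Multiset.card f.roots := Multiset.toFinset_card_le _
      _ ≤ f.natDegree := card_roots' f
      _ = _ := hfd
  have he := Finset.eq_of_subset_of_card_le hS hle
  have hx' : x ∈ f.roots.toFinset := by
    rw [Multiset.mem_toFinset, mem_roots hf0, IsRoot.def, eval_sub, eval_pow, eval_X, hx, sub_self]
  rw [← he] at hx'
  obtain ⟨a, -, rfl⟩ := Finset.mem_image.1 hx'
  exact ⟨a, rfl⟩

/-- homomorphisms to a finite field are the homomorphisms to a larger field which are fixed by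
the Frobenius -/
noncomputable def homEquiv (B : Type*) [CommRing B] (i : L →+* Ω) :
    (B →+* L) ≃ {y : B →+* Ω // ∀ b, y b ^ Nat.card L = y b} where
  toFun x := ⟨i.comp x, fun b => by
    cases nonempty_fintype L
    rw [RingHom.comp_apply, ← map_pow, Nat.card_eq_fintype_card, FiniteField.pow_card]⟩
  invFun y := (RingEquiv.ofLeftInverse (f := i)
      (g := Function.invFun i) (Function.leftInverse_invFun i.injective)).symm.toRingHom.comp
    (y.1.codRestrict i.range fun b => mem_range_of_pow_card i (y.2 b))
  left_inv x := by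
    ext b
    apply i.injective
    have h := (RingEquiv.ofLeftInverse (f := i)
      (g := Function.invFun i) (Function.leftInverse_invFun i.injective)).apply_symm_apply
      ⟨i (x b), ⟨x b, rfl⟩⟩
    exact congrArg Subtype.val h
  right_inv y := by
    apply Subtype.ext
    ext b
    have h := (RingEquiv.ofLeftInverse (f := i)
      (g := Function.invFun i) (Function.leftInverse_invFun i.injective)).apply_symm_apply
      ⟨y.1 b, mem_range_of_pow_card i (y.2 b)⟩
    exact congrArg Subtype.val h

end emb

section char

variable (p : ℕ) [Fact p.Prime] {Ω : Type*} [Field Ω] [CharP Ω p]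

/-- a finite field of characteristic `p` embeds in `Ω` -/
lemma exists_emb [IsAlgClosed Ω] (L : Type*) [Field L] [Finite L] [CharP L p] : Nonempty (L →+* Ω) := by
  let _ : Algebra (ZMod p) L := ZMod.algebra L p
  let _ : Algebra (ZMod p) Ω := ZMod.algebra Ω p
  have : Algebra.IsAlgebraic (ZMod p) L := Algebra.IsAlgebraic.of_finite (ZMod p) L
  exact ⟨((IsAlgClosed.lift : L →ₐ[ZMod p] Ω) : L →+* Ω)⟩

theorem card_hom [IsAlgClosed Ω] (B : Type*) [CommRing B] (L : Type*) [Field L] [Finite L] [CharP L p] :
    Nat.card (B →+* L) = Nat.card {y : B →+* Ω // ∀ b, y b ^ Nat.card L = y b} :=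
  Nat.card_congr (homEquiv B (exists_emb p (Ω := Ω) L).some)

variable (Ω) in
/-- the Frobenius of the field with `p ^ k` elements on the points with values in `Ω` -/
noncomputable def Frob (k : ℕ) (B : Type*) [CommRing B] (y : B →+* Ω) : B →+* Ω :=
  (iterateFrobenius Ω p k).comp y

lemma Frob_apply (k : ℕ) {B : Type*} [CommRing B] (y : B →+* Ω) (b : B) :
    Frob p Ω k B y b = y b ^ p ^ k := by
  simp [Frob, iterateFrobenius_def]

lemma Frob_iterate_apply (k : ℕ) {B : Type*} [CommRing B] (y : B →+* Ω) (j : ℕ) (b : B) :
    (Frob p Ω k B)^[j] y b = y b ^ (p ^ k) ^ j := by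
  induction j with
  | zero => simp
  | succ j ih => rw [iterate_succ_apply', Frob_apply, ih, ← pow_mul, pow_succ]

lemma Frob_iterate_eq (k : ℕ) {B : Type*} [CommRing B] (y : B →+* Ω) (j : ℕ) :
    (Frob p Ω k B)^[j] y = y ↔ ∀ b, y b ^ (p ^ k) ^ j = y b := by
  constructor
  · intro h b
    rw [← Frob_iterate_apply, h]
  · intro h
    ext b
    rw [Frob_iterate_apply, h]

/-- points over a finite field are the points fixed by the Frobenius -/
theorem card_hom_frob [IsAlgClosed Ω] (k j : ℕ) (B : Type*) [CommRing B] (L : Type*) [Field L] [Finite L]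
    [CharP L p] (hL : Nat.card L = (p ^ k) ^ j) :
    Nat.card (B →+* L) = Nat.card {y : B →+* Ω // (Frob p Ω k B)^[j] y = y} := by
  rw [card_hom p (Ω := Ω) B L, hL]
  exact Nat.card_congr (Equiv.subtypeEquivRight fun y => (Frob_iterate_eq p k y j).symm)

theorem card_hom_frob_one [IsAlgClosed Ω] (k : ℕ) (B : Type*) [CommRing B] (L : Type*) [Field L] [Finite L]
    [CharP L p] (hL : Nat.card L = p ^ k) :
    Nat.card (B →+* L) = Nat.card {y : B →+* Ω // Frob p Ω k B y = y} := by
  have h := card_hom_frob p (Ω := Ω) k 1 B L (by rw [hL, pow_one])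
  simpa using h

end char

end Pool.Agent.HW
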