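import Mathlib

/-!
# The fundamental theorem of symmetric polynomials for several blocks of variables
-/

set_option autoImplicit false

open MvPolynomial Equiv

namespace Pool.Agent.HW

/-- elementary symmetric polynomials of a block of variables -/
noncomputable def blockER {V B : Type} [Fintype V] [DecidableEq B] (R : Type) [CommRing R]
    (β : V → B) (b : B) (m : ℕ) : MvPolynomial V R :=
  ∑ T ∈ (Finset.univ.filter (β · = b)).powersetCard m, ∏ v ∈ T, X v

/-- elementary symmetric polynomials of a block of variables -/
noncomputable def blockE {V B : Type} [Fintype V] [DecidableEq B]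
    (β : V → B) (b : B) (m : ℕ) : MvPolynomial V ℤ :=
  ∑ T ∈ (Finset.univ.filter (β · = b)).powersetCard m, ∏ v ∈ T, X v

lemma sum_powersetCard_emb {V W R : Type} [CommRing R] (j : W ↪ V) (s : Finset W) (m : ℕ)
    (x : V → R) :
    ∑ T ∈ s.powersetCard m, ∏ w ∈ T, x (j w) = ∑ T ∈ (s.map j).powersetCard m, ∏ v ∈ T, x v := by
  rw [Finset.powersetCard_map, Finset.sum_map]
  refine Finset.sum_congr rfl fun T _ => ?_
  simp

section step

variable {V B : Type} [DecidableEq B] (R : Type) [CommRing R] (β : V → B) (b : B)

/-- the splitting of the block `b` -/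
noncomputable def dd : MvPolynomial V R →+* MvPolynomial {v // β v = b} (MvPolynomial {v // ¬ β v = b} R) :=
  eval₂Hom (C.comp C) (fun v => if h : β v = b then X ⟨v, h⟩ else C (X ⟨v, h⟩))

/-- the inverse of the splitting of the block `b` -/
noncomputable def uu : MvPolynomial {v // β v = b} (MvPolynomial {v // ¬ β v = b} R) →+* MvPolynomial V R :=
  eval₂Hom (rename (R := R) Subtype.val : MvPolynomial {v // ¬ β v = b} R →ₐ[R] MvPolynomial V R).toRingHom
    (fun v => X v.1)

lemma dd_X_pos {v : V} (h : β v = b) : dd R β b (X v) = X ⟨v, h⟩ := by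
  simp [dd, h]

lemma dd_X_neg {v : V} (h : ¬ β v = b) : dd R β b (X v) = C (X ⟨v, h⟩) := by
  simp [dd, h]

lemma dd_C (r : R) : dd R β b (C r) = C (C r) := by
  simp [dd]

lemma uu_dd (f : MvPolynomial V R) : uu R β b (dd R β b f) = f := by
  have : (uu R β b).comp (dd R β b) = RingHom.id _ := by
    apply MvPolynomial.ringHom_ext
    · intro r
      simp [uu, dd_C]
    · intro v
      by_cases h : β v = b
      · rw [RingHom.comp_apply, dd_X_pos R β b h]
        simp [uu]
      · rw [RingHom.comp_apply, dd_X_neg R β b h]
        simp [uu]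
  exact congrArg (fun F => F f) this

lemma dd_rename (s : Perm {v // β v = b}) (s' : Perm {v // ¬ β v = b}) (f : MvPolynomial V R) :
    dd R β b (rename (Perm.subtypeCongr s s') f) =
      rename s (map (rename s' : MvPolynomial {v // ¬ β v = b} R →ₐ[R] _).toRingHom (dd R β b f)) := by
  have : (dd R β b).comp (rename (R := R) (Perm.subtypeCongr s s')).toRingHom =
      ((rename (R := MvPolynomial {v // ¬ β v = b} R) s).toRingHom.comp
        (map (rename s' : MvPolynomial {v // ¬ β v = b} R →ₐ[R] _).toRingHom)).comp
        (dd R β b) := by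
    apply MvPolynomial.ringHom_ext
    · intro r
      simp [dd_C]
    · intro v
      by_cases h : β v = b
      · have h1 : Perm.subtypeCongr s s' v = (s ⟨v, h⟩).1 :=
          Perm.subtypeCongr.left_apply s s' h
        show dd R β b (rename _ (X v)) = rename _ (map _ (dd R β b (X v)))
        rw [rename_X, h1, dd_X_pos R β b h, dd_X_pos R β b (s ⟨v, h⟩).2, map_X, rename_X]
      · have h1 : Perm.subtypeCongr s s' v = (s' ⟨v, h⟩).1 :=
          Perm.subtypeCongr.right_apply s s' h
        show dd R β b (rename _ (X v)) = rename _ (map _ (dd R β b (X v)))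
        rw [rename_X, h1, dd_X_neg R β b h, dd_X_neg R β b (s' ⟨v, h⟩).2, map_C, rename_C]
        simp
  exact congrArg (fun F => F f) this

lemma map_esymmAlgHom {S S' σ : Type} [CommRing S] [CommRing S'] [Fintype σ] (φ : S →+* S') (n : ℕ)
    (P : MvPolynomial (Fin n) S) :
    (esymmAlgHom σ S' n (map φ P)).1 = map φ (esymmAlgHom σ S n P).1 := by
  rw [esymmAlgHom_apply, esymmAlgHom_apply, aeval_def, aeval_def, eval₂_map, eval₂_comp_left]
  congr 1
  · ext r : 1
    simp [algebraMap_eq]
  · funext i
    simp [map_esymm]

lemma rename_one {W : Type} :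
    (rename ⇑(1 : Perm W) : MvPolynomial W R →ₐ[R] MvPolynomial W R).toRingHom = RingHom.id _ :=
  RingHom.ext fun x => rename_id_apply x

variable [Fintype V]

lemma uu_esymm (m : ℕ) : uu R β b (esymm {v // β v = b} _ m) = blockER R β b m := by
  rw [esymm, map_sum]
  simp only [map_prod]
  have h1 : ∀ w : {v // β v = b}, uu R β b (X w) = X (Function.Embedding.subtype _ w) := by
    intro w
    simp [uu]
  simp only [h1]
  rw [sum_powersetCard_emb (Function.Embedding.subtype _) Finset.univ m
    (fun v => (X v : MvPolynomial V R))]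
  unfold blockER
  congr 2
  ext v
  simp

lemma rename_blockER (b' : B) (m : ℕ) :
    rename Subtype.val (blockER R (fun v : {v // ¬ β v = b} => β v.1) b' m) =
      if b' = b then (if m = 0 then 1 else 0) else blockER R β b' m := by
  unfold blockER
  rw [map_sum]
  simp only [map_prod, rename_X]
  have := sum_powersetCard_emb (Function.Embedding.subtype _)
    (Finset.univ.filter (fun v : {v // ¬ β v = b} => β v.1 = b')) m
    (fun v => (X v : MvPolynomial V R))
  simp only [Function.Embedding.subtype_apply] at this
  rw [this]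
  split_ifs with h1 h2
  · have : (Finset.map (Function.Embedding.subtype fun v => ¬β v = b)
        (Finset.univ.filter (fun v : {v // ¬ β v = b} => β v.1 = b'))) = ∅ := by
      subst h1
      ext v
      simp
    rw [this, h2]
    simp
  · have : (Finset.map (Function.Embedding.subtype fun v => ¬β v = b)
        (Finset.univ.filter (fun v : {v // ¬ β v = b} => β v.1 = b'))) = ∅ := by
      subst h1
      ext v
      simp
    rw [this]
    obtain ⟨k, rfl⟩ := Nat.exists_eq_succ_of_ne_zero h2
    simp [Finset.powersetCard_eq_empty.2]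
  · congr 2
    ext v
    simp only [Finset.mem_map, Finset.mem_filter, Finset.mem_univ, true_and,
      Function.Embedding.subtype_apply, Subtype.exists, exists_and_left, exists_prop,
      exists_eq_right_right]
    constructor
    · rintro ⟨h, _⟩
      exact h
    · intro h
      refine ⟨h, ?_⟩
      rw [h]
      exact h1

end step

/-- the fundamental theorem with coefficients -/
theorem fundR (R : Type) [CommRing R] {B : Type} [DecidableEq B] (n : ℕ) :
    ∀ {V : Type} [Fintype V] (β : V → B), Fintype.card V = n →
    ∀ f : MvPolynomial V R, (∀ s : Perm V, (∀ v, β (s v) = β v) → rename s f = f) →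
      f ∈ Algebra.adjoin R {g | ∃ b m, g = blockER R β b m} := by
  induction n using Nat.strong_induction_on with
  | _ n ih =>
  intro V _ β hn f hf
  rcases isEmpty_or_nonempty V with hV | ⟨⟨v0⟩⟩
  · obtain ⟨r, rfl⟩ := C_surjective V f
    exact Subalgebra.algebraMap_mem _ r
  set b := β v0 with hb
  have hcard : Fintype.card {v // ¬ β v = b} < n := by
    rw [← hn]
    exact Fintype.card_subtype_lt (x := v0) (by simp [hb])
  have hsym : ∀ s : Perm {v // β v = b}, rename s (dd R β b f) = dd R β b f := by
    intro s
    have h1 := dd_rename R β b s 1 f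
    rw [hf, rename_one, map_id] at h1
    · exact h1.symm
    · intro v
      by_cases h : β v = b
      · have e1 := Perm.subtypeCongr.left_apply (p := fun v => β v = b) s 1 h
        rw [e1, (s ⟨v, h⟩).2, h]
      · have e1 := Perm.subtypeCongr.right_apply (p := fun v => β v = b) s 1 h
        rw [e1]
        rfl
  have hinv : ∀ s' : Perm {v // ¬ β v = b}, (∀ v, β (s' v).1 = β v.1) →
      map (rename s' : MvPolynomial {v // ¬ β v = b} R →ₐ[R] _).toRingHom (dd R β b f) =
        dd R β b f := by
    intro s' hs'
    have h1 := dd_rename R β b 1 s' f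
    rw [hf] at h1
    · have h2 : ∀ g : MvPolynomial {v // β v = b} (MvPolynomial {v // ¬ β v = b} R),
          rename ⇑(1 : Perm {v // β v = b}) g = g := by
        intro g
        have := rename_id_apply g
        exact this
      rw [h2] at h1
      exact h1.symm
    · intro v
      by_cases h : β v = b
      · have e1 := Perm.subtypeCongr.left_apply (p := fun v => β v = b) 1 s' h
        rw [e1]
        rfl
      · have e1 := Perm.subtypeCongr.right_apply (p := fun v => β v = b) 1 s' h
        rw [e1, hs']
  obtain ⟨P, hP⟩ := esymmAlgHom_surjective (σ := {v // β v = b}) (MvPolynomial {v // ¬ β v = b} R)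
    (le_refl _) ⟨dd R β b f, hsym⟩
  have hP' := congrArg Subtype.val hP
  simp only at hP'
  have hcoef : ∀ α, coeff α P ∈ Algebra.adjoin R {g | ∃ b' m, g =
      blockER R (fun v : {v // ¬ β v = b} => β v.1) b' m} := by
    intro α
    refine ih _ hcard _ rfl _ ?_
    intro s' hs'
    have h1 : map (rename s' : MvPolynomial {v // ¬ β v = b} R →ₐ[R] _).toRingHom P = P := by
      apply esymmAlgHom_injective (σ := {v // β v = b}) (MvPolynomial {v // ¬ β v = b} R) (le_refl _)
      apply Subtype.ext
      rw [map_esymmAlgHom, hP', hinv s' hs']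
    have h2 := congrArg (coeff α) h1
    rw [coeff_map] at h2
    exact h2
  have hfin : f = eval₂ ((uu R β b).comp C) (fun i : Fin (Fintype.card {v // β v = b}) =>
      blockER R β b (i + 1)) P := by
    conv_lhs => rw [← uu_dd R β b f, ← hP', esymmAlgHom_apply, aeval_def, eval₂_comp_left]
    congr 1
    funext i
    simp [uu_esymm]
  rw [hfin, eval₂_eq']
  refine Subalgebra.sum_mem _ fun α _ => Subalgebra.mul_mem _ ?_
    (Subalgebra.prod_mem _ fun i _ => Subalgebra.pow_mem _ (Algebra.subset_adjoin ?_) _)
  swap
  · exact ⟨b, (i : ℕ) + 1, rfl⟩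
  have h3 : (rename (R := R) Subtype.val : MvPolynomial {v // ¬ β v = b} R →ₐ[R]
      MvPolynomial V R) (coeff α P) ∈ Subalgebra.map (rename (R := R) Subtype.val :
        MvPolynomial {v // ¬ β v = b} R →ₐ[R] MvPolynomial V R) (Algebra.adjoin R {g | ∃ b' m, g =
        blockER R (fun v : {v // ¬ β v = b} => β v.1) b' m}) :=
    Subalgebra.mem_map.2 ⟨_, hcoef α, rfl⟩
  rw [AlgHom.map_adjoin] at h3
  have h4 : ((uu R β b).comp C) (coeff α P) = rename Subtype.val (coeff α P) := by
    simp [uu]
  rw [h4]
  refine (Algebra.adjoin_le ?_) h3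
  rintro _ ⟨_, ⟨b', m, rfl⟩, rfl⟩
  show rename Subtype.val _ ∈ _
  rw [rename_blockER]
  split_ifs
  · exact one_mem _
  · exact zero_mem _
  · exact Algebra.subset_adjoin ⟨b', m, rfl⟩

/-- **the fundamental theorem of symmetric polynomials for several blocks of variables** -/
theorem fund {V B : Type} [Fintype V] [DecidableEq B] (β : V → B)
    (f : MvPolynomial V ℤ)
    (hf : ∀ s : Equiv.Perm V, (∀ v, β (s v) = β v) → MvPolynomial.rename s f = f) :
    f ∈ Algebra.adjoin ℤ {g | ∃ b m, g = blockE β b m} :=
  fundR ℤ _ β rfl f hf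

end Pool.Agent.HW
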