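import Pool.Agent.HW.ST

/-!
# Meromorphic continuation by approximation

If `c` differs from functions whose zeta functions continue by functions of arbitrarily fast
decay, then the zeta function of `c` continues.
-/

open Complex Filter Topology
open scoped ArithmeticFunction.vonMangoldt
open Pool.Agent.Helper29.Zeta

namespace Pool.Agent.HW

lemma norm_coef_le_of {c : ℕ → ℂ} {C x : ℝ}
    (h : ∀ n : ℕ, IsPrimePow n → ‖c n‖ ≤ C * (n : ℝ) ^ x) (n : ℕ) :
    ‖coef c n‖ ≤ |C| * (n : ℝ) ^ x := by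
  by_cases hn : IsPrimePow n
  · calc ‖coef c n‖ = ‖c n‖ * ‖((Λ n / Real.log n : ℝ) : ℂ)‖ := norm_mul _ _
      _ ≤ ‖c n‖ * 1 := mul_le_mul_of_nonneg_left (norm_ratio_le n) (norm_nonneg _)
      _ = ‖c n‖ := mul_one _
      _ ≤ C * (n : ℝ) ^ x := h n hn
      _ ≤ |C| * (n : ℝ) ^ x := mul_le_mul_of_nonneg_right (le_abs_self C) (by positivity)
  · rw [coef_of_not hn, norm_zero]; positivity

/-- the exponential of a Dirichlet series with small coefficients is analytic far to the left -/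
lemma analytic_of_decay {c : ℕ → ℂ} {C x : ℝ}
    (h : ∀ n : ℕ, IsPrimePow n → ‖c n‖ ≤ C * (n : ℝ) ^ x) :
    AnalyticOnNhd ℂ (fun s => exp (D c s)) {s | x + 1 < s.re} := by
  have h1 : LSeries.abscissaOfAbsConv (coef c) ≤ (x + 1 : ℝ) := by
    have := LSeries.abscissaOfAbsConv_le_of_le_const_mul_rpow (f := coef c) (x := x)
      ⟨|C|, fun n _ => norm_coef_le_of h n⟩
    exact_mod_cast this
  intro s hs
  refine AnalyticAt.cexp' (f := D c) ?_
  refine LSeries_analyticOnNhd (coef c) s ?_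
  exact lt_of_le_of_lt h1 (by exact_mod_cast hs)

/-- two meromorphic functions on a half plane which agree far to the right agree near each point -/
lemma eventually_eq_of_right {F G : ℂ → ℂ} {x : ℝ} (hF : ∀ s : ℂ, x < s.re → MeromorphicAt F s)
    (hG : ∀ s : ℂ, x < s.re → MeromorphicAt G s) {σ : ℝ} (hFG : ∀ s : ℂ, σ < s.re → F s = G s)
    {s₀ : ℂ} (hs₀ : x < s₀.re) : ∀ᶠ s in 𝓝[≠] s₀, F s = G s := by
  set U : Set ℂ := {s | x < s.re} with hU
  have hUc : IsPreconnected U := (convex_halfSpace_re_gt x).isPreconnected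
  have hH : MeromorphicOn (F - G) U := fun z hz => (hF z hz).sub (hG z hz)
  have htop : meromorphicOrderAt (F - G) s₀ = ⊤ := by
    by_contra hcon
    have hx : ((max x σ + 1 : ℝ) : ℂ) ∈ U := by
      show x < ((max x σ + 1 : ℝ) : ℂ).re
      rw [Complex.ofReal_re]
      linarith [le_max_left x σ]
    have h1 := hH.meromorphicOrderAt_ne_top_of_isPreconnected hUc (show s₀ ∈ U from hs₀) hx hcon
    apply h1
    rw [meromorphicOrderAt_eq_top_iff]
    refine Filter.Eventually.filter_mono nhdsWithin_le_nhds ?_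
    have hopen : IsOpen {s : ℂ | σ < s.re} := isOpen_lt continuous_const Complex.continuous_re
    have hmem : ((max x σ + 1 : ℝ) : ℂ) ∈ {s : ℂ | σ < s.re} := by
      show σ < ((max x σ + 1 : ℝ) : ℂ).re
      rw [Complex.ofReal_re]
      linarith [le_max_right x σ]
    filter_upwards [hopen.mem_nhds hmem] with s hs
    rw [Pi.sub_apply, hFG s hs, sub_self]
  filter_upwards [meromorphicOrderAt_eq_top_iff.mp htop] with s hs
  rwa [Pi.sub_apply, sub_eq_zero] at hs

theorem mero_of_approx {c : ℕ → ℂ} (hc : Growth c)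
    (h : ∀ K : ℕ, ∃ r : ℕ → ℂ, Mero r ∧ Growth r ∧ ∃ C : ℝ, ∀ n : ℕ, IsPrimePow n →
      ‖c n - r n‖ ≤ C * (n : ℝ) ^ (-(K : ℝ))) : Mero c := by
  choose r hr hrg C hC using h
  choose F hF σ hσ using hr
  -- the functions on the half planes
  let G : ℕ → ℂ → ℂ := fun K s => F K s * exp (D (fun n => c n - r K n) s)
  have hG : ∀ (K : ℕ) (s : ℂ), -(K : ℝ) + 1 < s.re → MeromorphicAt (G K) s := by
    intro K s hs
    exact (hF K s trivial).mul ((analytic_of_decay (hC K)) s hs).meromorphicAt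
  have hGc : ∀ K, ∃ τ : ℝ, ∀ s : ℂ, τ < s.re → G K s = exp (D c s) := by
    intro K
    obtain ⟨x, hx⟩ := D_add (hrg K) (hc.sub (hrg K))
    refine ⟨max (σ K) x, fun s hs => ?_⟩
    obtain ⟨h1, h2⟩ := max_lt_iff.mp hs
    show F K s * exp (D (fun n => c n - r K n) s) = exp (D c s)
    rw [hσ K s h1, ← Complex.exp_add, ← hx s h2]
    congr 2
    funext n
    ring
  choose τ hτ using hGc
  -- any two agree near each point of the smaller half plane
  have hagree : ∀ (K L : ℕ) (s : ℂ), -(K : ℝ) + 1 < s.re → -(L : ℝ) + 1 < s.re →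
      ∀ᶠ z in 𝓝[≠] s, G K z = G L z := by
    intro K L s hK hL
    refine eventually_eq_of_right (x := max (-(K : ℝ) + 1) (-(L : ℝ) + 1))
      (fun z hz => hG K z (max_lt_iff.mp hz).1) (fun z hz => hG L z (max_lt_iff.mp hz).2)
      (σ := max (τ K) (τ L)) ?_ (max_lt hK hL)
    intro z hz
    rw [hτ K z (max_lt_iff.mp hz).1, hτ L z (max_lt_iff.mp hz).2]
  let idx : ℂ → ℕ := fun s => ⌈1 - s.re⌉₊ + 2
  have hidx : ∀ s, -(idx s : ℝ) + 2 < s.re + 1 - 1 + 1 := by
    intro s
    simp only [idx]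
    push_cast
    linarith [Nat.le_ceil (1 - s.re)]
  refine ⟨fun s => G (idx s) s, ?_, τ 2 ⊔ 1, fun s hs => ?_⟩
  · intro s₀ _
    have h0 : -(idx s₀ : ℝ) + 1 < s₀.re := by
      have := hidx s₀
      linarith
    refine (hG (idx s₀) s₀ h0).congr ?_
    -- the indices near `s₀` are bounded
    have hfin : ∀ᶠ z in 𝓝[≠] s₀, ∀ K ∈ Finset.range (⌈2 - s₀.re⌉₊ + 3),
        -(K : ℝ) + 1 < s₀.re → G K z = G (idx s₀) z := by
      rw [Filter.eventually_all_finset]
      intro K _
      by_cases hK : -(K : ℝ) + 1 < s₀.re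
      · filter_upwards [hagree K (idx s₀) s₀ hK h0] with z hz _ using hz
      · exact Filter.Eventually.of_forall fun z hz => absurd hz hK
    have hnear : ∀ᶠ z : ℂ in 𝓝[≠] s₀, |z.re - s₀.re| < 1 / 2 := by
      refine Filter.Eventually.filter_mono nhdsWithin_le_nhds ?_
      have hopen : IsOpen {z : ℂ | |z.re - s₀.re| < 1 / 2} :=
        isOpen_lt ((Complex.continuous_re.sub continuous_const).abs) continuous_const
      exact hopen.mem_nhds (by simp)
    filter_upwards [hfin, hnear] with z hz hz'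
    obtain ⟨h1, h2⟩ := abs_lt.mp hz'
    refine (hz (idx z) ?_ ?_).symm
    · rw [Finset.mem_range]
      have : ⌈1 - z.re⌉₊ ≤ ⌈2 - s₀.re⌉₊ := Nat.ceil_le_ceil (by linarith)
      simp only [idx]
      omega
    · have := hidx z
      simp only [idx] at this ⊢
      push_cast at this ⊢
      linarith [Nat.le_ceil (1 - z.re)]
  · have h1 : τ 2 < s.re := lt_of_le_of_lt le_sup_left hs
    have h2 : (1 : ℝ) < s.re := lt_of_le_of_lt le_sup_right hs
    have h3 : idx s = 2 := by
      simp only [idx]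
      rw [Nat.ceil_eq_zero.mpr (by linarith)]
    show G (idx s) s = _
    rw [h3]
    exact hτ 2 s h1

end Pool.Agent.HW
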