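import Pool.Agent.HW3.Pow

/-!
# Symmetric powers of integer polynomials in Weil numbers
-/

set_option autoImplicit false

open PowerSeries
open Pool.Agent.HW3

namespace Pool.Agent.HW

/-- `(1 - B X) ^ (-z)` -/
noncomputable def fz {S : Type} [CommRing S] (B : S) (z : ℤ) : PowerSeries S :=
  (1 - C B * X) ^ (-z).toNat * (mk fun l => B ^ l) ^ z.toNat

lemma map_fz {S T : Type} [CommRing S] [CommRing T] (φ : S →+* T) (B : S) (z : ℤ) :
    PowerSeries.map φ (fz B z) = fz (φ B) z := by
  unfold fz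
  rw [map_mul, map_pow, map_pow, map_sub, map_one, map_mul, map_C, map_X]
  congr 2
  ext l
  rw [coeff_map, coeff_mk, coeff_mk, map_pow]

lemma LD_pow {g : PowerSeries ℂ} {S : ℕ → ℂ} (h : LD g S) (n : ℕ) :
    LD (g ^ n) (fun l => n * S l) := by
  have h1 := LD.prod (Finset.range n) (g := fun _ => g) (S := fun _ => S) (fun _ _ => h)
  rw [Finset.prod_const, Finset.card_range] at h1
  exact h1.congr fun l _ => by rw [Finset.sum_const, Finset.card_range, nsmul_eq_mul]

lemma LD_fz (B : ℂ) (z : ℤ) : LD (fz B z) (fun l => z * B ^ l) := by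
  have h := (LD_pow (LD_lin B) (-z).toNat).mul (LD_pow (LD_geo B) z.toNat)
  refine LD.congr (g := fz B z) h fun l _ => ?_
  have h1 : ((z.toNat : ℤ) : ℂ) - ((-z).toNat : ℤ) = z := by
    rw [← Int.cast_sub, Int.toNat_sub_toNat_neg]
  rw [← h1]
  push_cast
  ring

/-- the series whose coefficients are the symmetric powers -/
noncomputable def hser {W : Type} (G : MvPolynomial W ℤ) : PowerSeries (MvPolynomial W ℤ) :=
  ∏ t ∈ G.support, fz (MvPolynomial.monomial t (1 : ℤ)) (G.coeff t)

lemma map_rename_hser {W : Type} (G : MvPolynomial W ℤ) (g : Equiv.Perm W)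
    (h : MvPolynomial.rename g G = G) :
    PowerSeries.map (MvPolynomial.rename g : MvPolynomial W ℤ →ₐ[ℤ] MvPolynomial W ℤ).toRingHom
      (hser G) = hser G := by
  unfold hser
  rw [map_prod]
  have hco : ∀ t : W →₀ ℕ, G.coeff (t.mapDomain g) = G.coeff t := by
    intro t
    conv_lhs => rw [← h]
    exact MvPolynomial.coeff_rename_mapDomain g g.injective G t
  refine Finset.prod_bij (fun t _ => t.mapDomain g) ?_ ?_ ?_ ?_
  · intro t ht
    rw [MvPolynomial.mem_support_iff] at ht ⊢
    rwa [hco]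
  · intro t _ t' _ htt
    exact Finsupp.mapDomain_injective g.injective htt
  · intro t ht
    refine ⟨t.mapDomain g.symm, ?_, ?_⟩
    · rw [MvPolynomial.mem_support_iff] at ht ⊢
      rw [← hco, ← Finsupp.mapDomain_comp, Equiv.self_comp_symm, Finsupp.mapDomain_id]
      exact ht
    · rw [← Finsupp.mapDomain_comp, Equiv.self_comp_symm, Finsupp.mapDomain_id]
  · intro t _
    rw [map_fz, hco]
    congr 1
    exact MvPolynomial.rename_monomial g t 1

lemma LD_hser {W : Type} (G : MvPolynomial W ℤ) (x : W → ℂ) :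
    LD (PowerSeries.map (MvPolynomial.eval₂Hom (Int.castRingHom ℂ) x) (hser G))
      (fun l => MvPolynomial.eval₂ (Int.castRingHom ℂ) (fun v => x v ^ l) G) := by
  unfold hser
  rw [map_prod]
  refine (LD.prod G.support (S := fun t l =>
    ((G.coeff t : ℤ) : ℂ) * (MvPolynomial.eval₂Hom (Int.castRingHom ℂ) x
      (MvPolynomial.monomial t (1 : ℤ))) ^ l) fun t _ => ?_).congr fun l _ => ?_
  · rw [map_fz]
    exact LD_fz _ _
  · rw [MvPolynomial.eval₂_eq]
    refine Finset.sum_congr rfl fun t _ => ?_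
    rw [MvPolynomial.coe_eval₂Hom, MvPolynomial.eval₂_monomial, map_one, one_mul, eq_intCast]
    congr 1
    unfold Finsupp.prod
    rw [← Finset.prod_pow]
    refine Finset.prod_congr rfl fun v _ => ?_
    rw [← pow_mul, ← pow_mul, mul_comm]

/-- **the symmetric powers of an integer polynomial in Weil numbers** -/
theorem exists_hm {W : Type} (G : MvPolynomial W ℤ) (m : ℕ) :
    ∃ H : MvPolynomial W ℤ, (∀ g : Equiv.Perm W, MvPolynomial.rename g G = G →
      MvPolynomial.rename g H = H) ∧
    ∀ (x : W → ℂ) (σ : ℕ → ℂ), σ 0 = 1 →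
      (∀ m : ℕ, (m : ℂ) * σ m = ∑ l ∈ Finset.range m,
        MvPolynomial.eval₂ (Int.castRingHom ℂ) (fun v => x v ^ (l + 1)) G * σ (m - l - 1)) →
      σ m = MvPolynomial.eval₂ (Int.castRingHom ℂ) x H := by
  refine ⟨coeff m (hser G), fun g hg => ?_, fun x σ h0 h => ?_⟩
  · have h1 := congrArg (coeff m) (map_rename_hser G g hg)
    rw [coeff_map] at h1
    exact h1
  · have h1 := (LD_hser G x).unique h0 (fun m _ => ?_) m
    · rw [h1, coeff_map]
      rfl
    · rw [h m]
      refine Finset.sum_congr rfl fun l _ => ?_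
      rw [Nat.sub_sub]

end Pool.Agent.HW
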