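import Mathlib

/-!
# The Frobenius moments are real
-/

set_option autoImplicit false

open MvPolynomial Equiv ComplexConjugate

namespace Pool.Agent.HW

/-- signed multiplicities are determined by the power sums with positive exponents -/
lemma mult_of_powersums {J : Type} [Fintype J] (s a b : J → ℂ) (ha : ∀ j, a j ≠ 0)
    (hb : ∀ j, b j ≠ 0) (h : ∀ k : ℕ, 0 < k → ∑ j, s j * a j ^ k = ∑ j, s j * b j ^ k) (z : ℂ)
    (hz : z ≠ 0) :
    (∑ j, s j * if a j = z then 1 else 0) = ∑ j, s j * if b j = z then 1 else 0 := by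
  classical
  have hpoly : ∀ P : Polynomial ℂ, P.eval 0 = 0 →
      ∑ j, s j * P.eval (a j) = ∑ j, s j * P.eval (b j) := by
    intro P hP
    have h0 : P.coeff 0 = 0 := by rw [Polynomial.coeff_zero_eq_eval_zero, hP]
    simp only [Polynomial.eval_eq_sum_range, Finset.mul_sum]
    rw [Finset.sum_comm, Finset.sum_comm (s := (Finset.univ : Finset J))]
    refine Finset.sum_congr rfl fun k _ => ?_
    rcases Nat.eq_zero_or_pos k with rfl | hk
    · simp [h0]
    · have := congrArg (fun x => P.coeff k * x) (h k hk)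
      simp only [Finset.mul_sum] at this
      calc _ = ∑ j, P.coeff k * (s j * a j ^ k) := Finset.sum_congr rfl fun j _ => by ring
        _ = ∑ j, P.coeff k * (s j * b j ^ k) := this
        _ = _ := Finset.sum_congr rfl fun j _ => by ring
  let S : Finset ℂ := insert 0 (insert z (Finset.univ.image a ∪ Finset.univ.image b))
  let P := Lagrange.interpolate S id (fun x => if x = z then (1 : ℂ) else 0)
  have hP : ∀ x ∈ S, P.eval x = if x = z then 1 else 0 := by
    intro x hx
    exact Lagrange.eval_interpolate_at_node (v := id) _ (Set.injOn_id _) hx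
  have h1 := hpoly P (by rw [hP 0 (by simp [S]), if_neg hz.symm])
  have ha' : ∀ j, a j ∈ S := fun j => by simp [S]
  have hb' : ∀ j, b j ∈ S := fun j => by simp [S]
  simpa only [hP _ (ha' _), hP _ (hb' _)] using h1

/-- **the Weil numbers of each weight are stable under conjugation** if the numbers of points are
real -/
theorem exists_conj_perm {p : ℕ} (hp : 1 < p) {J : Type} [Fintype J] (wt : J → ℕ) (a : J → ℂ)
    (hn : ∀ j, ‖a j‖ = (p : ℝ) ^ ((wt j : ℝ) / 2))
    (hr : ∀ k : ℕ, 0 < k → (∑ j, (-1) ^ wt j * a j ^ k : ℂ).im = 0) :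
    ∃ g : Perm J, (∀ j, wt (g j) = wt j) ∧ ∀ j, conj (a j) = a (g j) := by
  classical
  have hp0 : (0 : ℝ) < p := by exact_mod_cast (Nat.zero_lt_one.trans hp)
  have hp1 : (1 : ℝ) < p := by exact_mod_cast hp
  have ha0 : ∀ j, a j ≠ 0 := by
    intro j h
    have := hn j
    rw [h, norm_zero] at this
    exact (Real.rpow_pos_of_pos hp0 _).ne this
  have hwt : ∀ j j', ‖a j‖ = ‖a j'‖ → wt j = wt j' := by
    intro j j' h
    rw [hn, hn] at h
    have h1 := (Real.rpow_right_inj hp0 hp1.ne').1 h
    have h2 : (wt j : ℝ) = wt j' := by linarith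
    exact_mod_cast h2
  have hsum : ∀ k : ℕ, 0 < k → ∑ j, (-1 : ℂ) ^ wt j * a j ^ k =
      ∑ j, (-1 : ℂ) ^ wt j * (conj (a j)) ^ k := by
    intro k hk
    have h1 := Complex.conj_eq_iff_im.2 (hr k hk)
    rw [map_sum] at h1
    rw [← h1]
    exact Finset.sum_congr rfl fun j _ => by simp
  have key : ∀ z : ℂ, Nonempty ({j // conj (a j) = z} ≃ {j // a j = z}) := by
    intro z
    rw [← Fintype.card_eq, Fintype.card_subtype, Fintype.card_subtype]
    by_cases hz : z = 0
    · subst hz
      rw [Finset.filter_false_of_mem, Finset.filter_false_of_mem]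
      · intro j _; exact ha0 j
      · intro j _ h
        exact ha0 j ((map_eq_zero _).1 h)
    have h1 := mult_of_powersums (fun j => (-1 : ℂ) ^ wt j) a (fun j => conj (a j)) ha0
      (fun j => (map_ne_zero _).2 (ha0 j)) hsum z hz
    by_cases hex : ∃ j0, ‖a j0‖ = ‖z‖
    · obtain ⟨j0, hj0⟩ := hex
      have h2 : ∀ b : J → ℂ, (∀ j, ‖b j‖ = ‖a j‖) →
          (∑ j, (-1 : ℂ) ^ wt j * if b j = z then 1 else 0) =
            (-1) ^ wt j0 * (Finset.univ.filter fun j => b j = z).card := by
        intro b hb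
        rw [Finset.card_filter, Nat.cast_sum, Finset.mul_sum]
        refine Finset.sum_congr rfl fun j _ => ?_
        by_cases hj : b j = z
        · have : wt j = wt j0 := hwt j j0 (by rw [← hb, hj, hj0])
          simp [hj, this]
        · simp [hj]
      rw [h2 a (fun _ => rfl), h2 _ (fun j => by simp)] at h1
      have h3 := mul_left_cancel₀ (pow_ne_zero _ (by norm_num)) h1
      exact_mod_cast h3.symm
    · rw [Finset.filter_false_of_mem, Finset.filter_false_of_mem]
      · intro j _ h
        exact hex ⟨j, by rw [h]⟩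
      · intro j _ h
        exact hex ⟨j, by rw [← h]; simp⟩
  refine ⟨(Equiv.sigmaFiberEquiv (fun j => conj (a j))).symm.trans ((Equiv.sigmaCongrRight fun z =>
      (key z).some).trans (Equiv.sigmaFiberEquiv a)), ?_⟩
  have h4 : ∀ j, conj (a j) = a (((Equiv.sigmaFiberEquiv (fun j => conj (a j))).symm.trans
      ((Equiv.sigmaCongrRight fun z => (key z).some).trans (Equiv.sigmaFiberEquiv a))) j) := by
    intro j
    exact ((key (conj (a j))).some ⟨j, rfl⟩).2.symm
  refine ⟨fun j => ?_, h4⟩
  apply hwt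
  rw [← h4 j]
  simp

/-- a block-symmetric polynomial has a real value at a point stable under conjugation -/
theorem eval_real {V B : Type} (β : V → B) (a : V → ℂ) (g : Perm V)
    (hg : ∀ v, β (g v) = β v) (hc : ∀ v, conj (a v) = a (g v)) (f : MvPolynomial V ℤ)
    (hf : ∀ s : Perm V, (∀ v, β (s v) = β v) → rename s f = f) :
    (eval₂ (Int.castRingHom ℂ) a f).im = 0 := by
  rw [← Complex.conj_eq_iff_im]
  have h1 : conj (eval₂ (Int.castRingHom ℂ) a f) =
      eval₂ (Int.castRingHom ℂ) (fun v => a (g v)) f := by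
    rw [eval₂_comp_left]
    congr 1
    · ext n; simp
    · funext v
      exact hc v
  rw [h1]
  conv_rhs => rw [← hf g hg]
  rw [eval₂_rename]
  rfl

/-- **the values of the block-symmetric polynomials in the Weil numbers of a family are real** -/
theorem family_real {p : ℕ} (hp : 1 < p) {I : Type} (J : I → Type) [∀ i, Fintype (J i)]
    (wt : ∀ i, J i → ℕ) (a : ∀ i, J i → ℂ)
    (hn : ∀ i j, ‖a i j‖ = (p : ℝ) ^ ((wt i j : ℝ) / 2))
    (hr : ∀ i, ∀ k : ℕ, 0 < k → (∑ j, (-1) ^ wt i j * a i j ^ k : ℂ).im = 0)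
    (f : MvPolynomial (Σ i, J i) ℤ)
    (hf : ∀ s : Perm (Σ i, J i), (∀ v, (s v).1 = v.1 ∧ wt (s v).1 (s v).2 = wt v.1 v.2) →
      rename s f = f) :
    (eval₂ (Int.castRingHom ℂ) (fun v : Σ i, J i => a v.1 v.2) f).im = 0 := by
  choose g hg hc using fun i => exists_conj_perm hp (wt i) (a i) (hn i) (hr i)
  refine eval_real (fun v : Σ i, J i => ((v.1 : I), wt v.1 v.2)) _ (Equiv.sigmaCongrRight g) ?_ ?_ f ?_
  · rintro ⟨i, j⟩
    exact Prod.ext rfl (hg i j)
  · rintro ⟨i, j⟩
    exact hc i j
  · intro s hs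
    apply hf
    intro v
    exact ⟨congrArg Prod.fst (hs v), congrArg Prod.snd (hs v)⟩

end Pool.Agent.HW
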