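import Pool.Agent.HW.Fix
import Pool.Agent.HW3.Newt

/-!
# The Newton recursion for the numbers of points of symmetric powers
-/

set_option autoImplicit false

open Function

namespace Pool.Agent.HW

open HW3

/-- a ring of finite type over the integers has finitely many homomorphisms to a finite ring -/
lemma finite_hom (A : Type*) [CommRing A] [Algebra.FiniteType ℤ A] (L : Type*) [CommRing L]
    [Finite L] : Finite (A →+* L) := by
  obtain ⟨S, hS⟩ := Algebra.FiniteType.out (R := ℤ) (A := A)
  refine Finite.of_injective (fun (f : A →+* L) (s : S) => f s) ?_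
  intro f g h
  have h1 : f.toIntAlgHom = g.toIntAlgHom := by
    refine AlgHom.ext_of_adjoin_eq_top hS ?_
    intro s hs
    exact congrFun h ⟨s, hs⟩
  ext a
  exact congrArg (fun u : A →ₐ[ℤ] L => u a) h1

section rec

variable (p : ℕ) [Fact p.Prime] {Ω : Type*} [Field Ω] [CharP Ω p] [IsAlgClosed Ω]

/-- if the points of `B` are the multisets of points of `A`, then the points of `B` over a finite
field are the multisets which are stable under the Frobenius -/
lemma card_eq_stab {A B : Type*} [CommRing A] [CommRing B] (m k : ℕ)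
    (E : (B →+* Ω) ≃ {s : Multiset (A →+* Ω) // s.card = m})
    (hE : ∀ y, (E ((iterateFrobenius Ω p k).comp y)).1 =
      (E y).1.map fun u => (iterateFrobenius Ω p k).comp u)
    (L : Type*) [Field L] [Finite L] [CharP L p] (hL : Nat.card L = p ^ k) :
    Nat.card (B →+* L) = Nat.card (Stab (Frob p Ω k A) m) := by
  rw [card_hom_frob_one p (Ω := Ω) k B L hL]
  refine Nat.card_congr
    { toFun := fun y => ⟨(E y.1).1, (E y.1).2, ?_⟩
      invFun := fun s => ⟨E.symm ⟨s.1, s.2.1⟩, ?_⟩
      left_inv := ?_
      right_inv := ?_ }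
  · have h := hE y.1
    rw [show (iterateFrobenius Ω p k).comp y.1 = y.1 from y.2] at h
    exact h.symm
  · apply E.injective
    apply Subtype.ext
    have h := hE (E.symm ⟨s.1, s.2.1⟩)
    rw [Equiv.apply_symm_apply] at h ⊢
    exact h.trans s.2.2
  · intro y
    apply Subtype.ext
    exact E.symm_apply_apply y.1
  · intro s
    apply Subtype.ext
    show (E (E.symm ⟨s.1, s.2.1⟩)).1 = s.1
    rw [Equiv.apply_symm_apply]

lemma finite_fixed (A : Type*) [CommRing A] [Algebra.FiniteType ℤ A] {k : ℕ} (hk : 0 < k) (j : ℕ)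
    (hj : 0 < j) : {y : A →+* Ω | (Frob p Ω k A)^[j] y = y}.Finite := by
  have hkj : k * j ≠ 0 := (Nat.mul_pos hk hj).ne'
  have : Finite (GaloisField p (k * j)) := inferInstance
  have hL : Nat.card (GaloisField p (k * j)) = p ^ (k * j) := GaloisField.card p _ hkj
  obtain ⟨i⟩ := exists_emb p (Ω := Ω) (GaloisField p (k * j))
  have e := homEquiv A i
  have hfin : Finite (A →+* GaloisField p (k * j)) := finite_hom A _
  have hfin2 := Finite.of_equiv _ e
  have h3 : Finite {y : A →+* Ω // (Frob p Ω k A)^[j] y = y} := by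
    refine Finite.of_injective (β := {y : A →+* Ω // ∀ b, y b ^ Nat.card
      (GaloisField p (k * j)) = y b}) (fun y => ⟨y.1, fun b => ?_⟩) ?_
    · rw [hL, pow_mul]
      exact (Frob_iterate_eq p k y.1 j).1 y.2 b
    · intro y z h
      apply Subtype.ext
      exact congrArg (fun u : {y : A →+* Ω // ∀ b, y b ^ Nat.card
        (GaloisField p (k * j)) = y b} => u.1) h
  exact h3

/-- Newton's recursion for the numbers of points of the symmetric powers -/
theorem sym_rec (A : Type*) [CommRing A] [Algebra.FiniteType ℤ A] (B : ℕ → Type*)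
    [∀ m, CommRing (B m)] {k : ℕ} (hk : 0 < k)
    (E : ∀ m, (B m →+* Ω) ≃ {s : Multiset (A →+* Ω) // s.card = m})
    (hE : ∀ m y, (E m ((iterateFrobenius Ω p k).comp y)).1 =
      (E m y).1.map fun u => (iterateFrobenius Ω p k).comp u)
    (L : Type*) [Field L] [Finite L] [CharP L p] (hL : Nat.card L = p ^ k)
    (M : ℕ → Type*) [∀ j, Field (M j)] [∀ j, Finite (M j)] [∀ j, CharP (M j) p]
    (hM : ∀ j, Nat.card (M j) = (p ^ k) ^ (j + 1)) (m : ℕ) :
    m * Nat.card (B m →+* L) = ∑ j ∈ Finset.range m,
      Nat.card (A →+* M j) * Nat.card (B (m - (j + 1)) →+* L) := by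
  classical
  have h := newton (F := Frob p Ω k A) (fun j hj => finite_fixed p A hk j hj) m
  rw [card_eq_stab p m k (E m) (hE m) L hL, h]
  refine Finset.sum_congr rfl fun j _ => ?_
  rw [card_eq_stab p (m - (j + 1)) k (E _) (hE _) L hL,
    card_hom_frob p (Ω := Ω) k (j + 1) A (M j) (hM j)]

theorem sym_zero (A : Type*) [CommRing A] (B : Type*) [CommRing B] (k : ℕ)
    (E : (B →+* Ω) ≃ {s : Multiset (A →+* Ω) // s.card = 0})
    (hE : ∀ y, (E ((iterateFrobenius Ω p k).comp y)).1 =
      (E y).1.map fun u => (iterateFrobenius Ω p k).comp u)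
    (L : Type*) [Field L] [Finite L] [CharP L p] (hL : Nat.card L = p ^ k) :
    Nat.card (B →+* L) = 1 := by
  classical
  rw [card_eq_stab p 0 k E hE L hL, card_stab_zero]

end rec

end Pool.Agent.HW
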