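import Pool.Agent.HW.Eul

/-!
# Moments

If the Euler product attached to `m (p ^ k) = ∑ t, z t * B p t ^ k`, `|B p t| ≤ p ^ (w / 2)`,
continues meromorphically, then the average of the normalised numbers `∑ t, z t * B p t` (over the
primes, in the sense of the Dirichlet density) exists and is an integer.
-/

open Complex Filter Topology
open ArithmeticFunction (vonMangoldt_apply)
open scoped ArithmeticFunction.vonMangoldt
open Pool.Agent.Helper29.Zeta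

namespace Pool.Agent.HW

section complex

lemma tendsto_ofReal_right (s₀ : ℝ) :
    Tendsto (fun s : ℝ => (s : ℂ)) (𝓝[>] s₀) (𝓝[≠] (s₀ : ℂ)) := by
  refine tendsto_nhdsWithin_iff.mpr ⟨?_, ?_⟩
  · exact (Complex.continuous_ofReal.tendsto s₀).mono_left nhdsWithin_le_nhds
  · filter_upwards [self_mem_nhdsWithin] with s hs
    simp only [Set.mem_compl_iff, Set.mem_singleton_iff, Complex.ofReal_inj]
    exact (ne_of_gt hs)

lemma exists_order {F G : ℂ → ℂ} {s₀ : ℝ} (hF : MeromorphicOn F Set.univ)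
    (hG : AnalyticOnNhd ℂ G {s | s₀ < s.re}) (hne : ∀ s : ℂ, s₀ < s.re → G s ≠ 0) {σ : ℝ}
    (hFG : ∀ s : ℂ, σ < s.re → F s = G s) :
    ∃ (ν : ℤ) (g : ℂ → ℂ), AnalyticAt ℂ g s₀ ∧ g s₀ ≠ 0 ∧
      ∀ᶠ s : ℝ in 𝓝[>] s₀, G s = ((s : ℂ) - s₀) ^ ν * g s := by
  set U : Set ℂ := {s | s₀ < s.re} with hU
  have hUc : IsPreconnected U := (convex_halfSpace_re_gt s₀).isPreconnected
  have hH : MeromorphicOn (F - G) U := fun z hz =>
    (hF z trivial).sub (hG z hz).meromorphicAt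
  -- the difference vanishes identically
  have htop : ∀ y ∈ U, meromorphicOrderAt (F - G) y = ⊤ := by
    intro y hy
    by_contra hcon
    have hx : ((max s₀ σ + 1 : ℝ) : ℂ) ∈ U := by
      show s₀ < ((max s₀ σ + 1 : ℝ) : ℂ).re
      rw [Complex.ofReal_re]
      linarith [le_max_left s₀ σ]
    have h1 := hH.meromorphicOrderAt_ne_top_of_isPreconnected hUc hy hx hcon
    apply h1
    rw [meromorphicOrderAt_eq_top_iff]
    refine Filter.Eventually.filter_mono nhdsWithin_le_nhds ?_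
    have hopen : IsOpen {s : ℂ | σ < s.re} := isOpen_lt continuous_const Complex.continuous_re
    have hmem : ((max s₀ σ + 1 : ℝ) : ℂ) ∈ {s : ℂ | σ < s.re} := by
      show σ < ((max s₀ σ + 1 : ℝ) : ℂ).re
      rw [Complex.ofReal_re]
      linarith [le_max_right s₀ σ]
    filter_upwards [hopen.mem_nhds hmem] with s hs
    rw [Pi.sub_apply, hFG s hs, sub_self]
  have heq : ∀ y ∈ U, AnalyticAt ℂ F y → F y = G y := by
    intro y hy hFy
    have h1 := (meromorphicOrderAt_eq_top_iff).mp (htop y hy)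
    have h2 : ContinuousAt (F - G) y := (hFy.sub (hG y hy)).continuousAt
    have h3 : Tendsto (F - G) (𝓝[≠] y) (𝓝 ((F - G) y)) :=
      h2.tendsto.mono_left nhdsWithin_le_nhds
    have h4 : Tendsto (F - G) (𝓝[≠] y) (𝓝 0) :=
      tendsto_const_nhds.congr' (by filter_upwards [h1] with z hz using hz.symm)
    have h5 := tendsto_nhds_unique h3 h4
    rw [Pi.sub_apply, sub_eq_zero] at h5
    exact h5
  have hs₀ := hF (s₀ : ℂ) trivial
  have hFG' : ∀ᶠ s : ℝ in 𝓝[>] s₀, F s = G s := by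
    have h1 := (tendsto_ofReal_right s₀).eventually hs₀.eventually_analyticAt
    filter_upwards [h1, self_mem_nhdsWithin] with s hs hs'
    exact heq _ (by show s₀ < ((s : ℝ) : ℂ).re; rw [Complex.ofReal_re]; exact hs') hs
  have hν : meromorphicOrderAt F (s₀ : ℂ) ≠ ⊤ := by
    intro h
    rw [meromorphicOrderAt_eq_top_iff] at h
    have h1 := (tendsto_ofReal_right s₀).eventually h
    have h2 : ∀ᶠ s : ℝ in 𝓝[>] s₀, False := by
      filter_upwards [h1, hFG', self_mem_nhdsWithin] with s hs hs' hs''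
      have h3 : G s ≠ 0 := hne _ (by rw [Complex.ofReal_re]; exact hs'')
      exact h3 (by rw [← hs', hs])
    rw [Filter.eventually_false_iff_eq_bot] at h2
    exact (NeBot.ne (nhdsGT_neBot s₀)) h2
  obtain ⟨ν, hν'⟩ := WithTop.ne_top_iff_exists.mp hν
  obtain ⟨g, hg, hg0, hgF⟩ := (meromorphicOrderAt_eq_int_iff hs₀).mp hν'.symm
  refine ⟨ν, g, hg, hg0, ?_⟩
  have h1 := (tendsto_ofReal_right s₀).eventually hgF
  filter_upwards [h1, hFG'] with s hs hs'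
  rw [← hs', hs, smul_eq_mul]

lemma log_limit {G : ℂ → ℂ} {s₀ : ℝ} {ν : ℤ} {g : ℂ → ℂ} (hg : AnalyticAt ℂ g s₀)
    (hg0 : g s₀ ≠ 0) (h : ∀ᶠ s : ℝ in 𝓝[>] s₀, G s = ((s : ℂ) - s₀) ^ ν * g s) :
    Tendsto (fun s : ℝ => Real.log ‖G s‖ / Real.log (1 / (s - s₀))) (𝓝[>] s₀)
      (𝓝 ((-ν : ℤ) : ℝ)) := by
  have hlog : Tendsto (fun s : ℝ => Real.log (1 / (s - s₀))) (𝓝[>] s₀) atTop := by
    have h1 : Tendsto (fun s : ℝ => s - s₀) (𝓝[>] s₀) (𝓝[>] 0) := by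
      refine tendsto_nhdsWithin_iff.mpr ⟨?_, ?_⟩
      · have : Tendsto (fun s : ℝ => s - s₀) (𝓝 s₀) (𝓝 (s₀ - s₀)) :=
          (continuous_id.sub continuous_const).tendsto s₀
        rw [sub_self] at this
        exact this.mono_left nhdsWithin_le_nhds
      · filter_upwards [self_mem_nhdsWithin] with s hs
        exact Set.mem_Ioi.mpr (sub_pos.mpr (Set.mem_Ioi.mp hs))
    have h2 : Tendsto (fun s : ℝ => 1 / (s - s₀)) (𝓝[>] s₀) atTop := by
      simp only [one_div]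
      exact tendsto_inv_nhdsGT_zero.comp h1
    exact Real.tendsto_log_atTop.comp h2
  have hgl : Tendsto (fun s : ℝ => Real.log ‖g s‖) (𝓝[>] s₀) (𝓝 (Real.log ‖g s₀‖)) := by
    have h1 : Tendsto (fun s : ℝ => g s) (𝓝[>] s₀) (𝓝 (g s₀)) :=
      hg.continuousAt.tendsto.comp ((tendsto_ofReal_right s₀).mono_right nhdsWithin_le_nhds)
    exact (Real.continuousAt_log (norm_ne_zero_iff.mpr hg0)).tendsto.comp h1.norm
  have hq := hgl.div_atTop hlog
  have hg1 : ∀ᶠ s : ℝ in 𝓝[>] s₀, g s ≠ 0 := by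
    have h1 : Tendsto (fun s : ℝ => g s) (𝓝[>] s₀) (𝓝 (g s₀)) :=
      hg.continuousAt.tendsto.comp ((tendsto_ofReal_right s₀).mono_right nhdsWithin_le_nhds)
    exact h1.eventually_ne hg0
  have hlim : Tendsto (fun s : ℝ => ((-ν : ℤ) : ℝ) + Real.log ‖g s‖ / Real.log (1 / (s - s₀)))
      (𝓝[>] s₀) (𝓝 ((-ν : ℤ) : ℝ)) := by
    have := hq.const_add ((-ν : ℤ) : ℝ)
    rwa [add_zero] at this
  refine hlim.congr' ?_
  filter_upwards [h, hg1, self_mem_nhdsWithin, hlog.eventually_gt_atTop 0] with s hs hs1 hs2 hs3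
  have hpos : 0 < s - s₀ := sub_pos.mpr hs2
  have h1 : ‖((s : ℂ) - s₀) ^ ν‖ = (s - s₀) ^ ν := by
    rw [norm_zpow, ← Complex.ofReal_sub, Complex.norm_real, Real.norm_of_nonneg hpos.le]
  rw [hs, norm_mul, h1, Real.log_mul (zpow_pos hpos ν).ne' (norm_ne_zero_iff.mpr hs1),
    Real.log_zpow, add_div]
  congr 1
  rw [one_div, Real.log_inv] at hs3 ⊢
  push_cast
  rw [eq_div_iff hs3.ne']
  ring

end complex

section series

variable {N : ℕ} {T : Type} [Fintype T] {z : T → ℤ} {B : ℕ → T → ℂ} {w : ℕ} {m : ℕ → ℂ}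

lemma norm_m_le (hB : ∀ p : ℕ, p.Prime → ¬ p ∣ N → ∀ t, ‖B p t‖ ≤ (p : ℝ) ^ ((w : ℝ) / 2))
    (hm : ∀ p k : ℕ, p.Prime → 0 < k →
      m (p ^ k) = if p ∣ N then 0 else ∑ t, (z t : ℂ) * B p t ^ k)
    {n : ℕ} (hn : IsPrimePow n) :
    ‖m n‖ ≤ (∑ t, ‖(z t : ℂ)‖) * (n : ℝ) ^ ((w : ℝ) / 2) := by
  obtain ⟨p, k, hp, hk, rfl⟩ := hn
  have hp' : p.Prime := hp.nat_prime
  rw [hm p k hp' hk]
  split_ifs with h
  · rw [norm_zero]; positivity
  · refine (norm_sum_le _ _).trans ?_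
    rw [Finset.sum_mul]
    refine Finset.sum_le_sum fun t _ => ?_
    rw [norm_mul, norm_pow]
    refine mul_le_mul_of_nonneg_left ?_ (norm_nonneg _)
    have h1 : ((p ^ k : ℕ) : ℝ) ^ ((w : ℝ) / 2) = ((p : ℝ) ^ ((w : ℝ) / 2)) ^ k := by
      push_cast
      rw [← Real.rpow_natCast (p : ℝ) k, ← Real.rpow_mul (Nat.cast_nonneg p), mul_comm,
        Real.rpow_mul (Nat.cast_nonneg p), Real.rpow_natCast]
    rw [h1]
    exact pow_le_pow_left₀ (norm_nonneg _) (hB p hp' h t) k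

lemma norm_coef_le (hB : ∀ p : ℕ, p.Prime → ¬ p ∣ N → ∀ t, ‖B p t‖ ≤ (p : ℝ) ^ ((w : ℝ) / 2))
    (hm : ∀ p k : ℕ, p.Prime → 0 < k →
      m (p ^ k) = if p ∣ N then 0 else ∑ t, (z t : ℂ) * B p t ^ k) (n : ℕ) :
    ‖coef m n‖ ≤ (∑ t, ‖(z t : ℂ)‖) * (n : ℝ) ^ ((w : ℝ) / 2) := by
  by_cases hn : IsPrimePow n
  · calc ‖coef m n‖ = ‖m n‖ * ‖((Λ n / Real.log n : ℝ) : ℂ)‖ := norm_mul _ _
      _ ≤ ‖m n‖ * 1 := mul_le_mul_of_nonneg_left (norm_ratio_le n) (norm_nonneg _)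
      _ = ‖m n‖ := mul_one _
      _ ≤ _ := norm_m_le hB hm hn
  · rw [coef_of_not hn, norm_zero]; positivity

lemma summable_of_lt (hB : ∀ p : ℕ, p.Prime → ¬ p ∣ N → ∀ t, ‖B p t‖ ≤ (p : ℝ) ^ ((w : ℝ) / 2))
    (hm : ∀ p k : ℕ, p.Prime → 0 < k →
      m (p ^ k) = if p ∣ N then 0 else ∑ t, (z t : ℂ) * B p t ^ k) {s : ℂ}
    (hs : (w : ℝ) / 2 + 1 < s.re) : LSeriesSummable (coef m) s := by
  refine LSeriesSummable_of_le_const_mul_rpow hs ⟨∑ t, ‖(z t : ℂ)‖, fun n _ => ?_⟩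
  rw [add_sub_cancel_right]
  exact norm_coef_le hB hm n

lemma analytic_of_lt (hB : ∀ p : ℕ, p.Prime → ¬ p ∣ N → ∀ t, ‖B p t‖ ≤ (p : ℝ) ^ ((w : ℝ) / 2))
    (hm : ∀ p k : ℕ, p.Prime → 0 < k →
      m (p ^ k) = if p ∣ N then 0 else ∑ t, (z t : ℂ) * B p t ^ k) :
    AnalyticOnNhd ℂ (fun s => exp (D m s)) {s | (w : ℝ) / 2 + 1 < s.re} := by
  have h1 : LSeries.abscissaOfAbsConv (coef m) ≤ ((w : ℝ) / 2 + 1 : ℝ) := by
    refine LSeries.abscissaOfAbsConv_le_of_le_const_mul_rpow ⟨∑ t, ‖(z t : ℂ)‖, fun n _ => ?_⟩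
    exact norm_coef_le hB hm n
  intro s hs
  refine AnalyticAt.cexp' (f := D m) ?_
  refine LSeries_analyticOnNhd (coef m) s ?_
  exact lt_of_le_of_lt h1 (by exact_mod_cast hs)

/-- the Dirichlet series over the powers of the good primes -/
lemma hasSum_good (hm : ∀ p k : ℕ, p.Prime → 0 < k →
      m (p ^ k) = if p ∣ N then 0 else ∑ t, (z t : ℂ) * B p t ^ k) {s : ℂ}
    (hs : LSeriesSummable (coef m) s) :
    HasSum (fun x : GoodPrime N × ℕ => LSeries.term (coef m) s (x.1.1 ^ (x.2 + 1))) (D m s) := by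
  have hsum : HasSum (LSeries.term (coef m) s) (D m s) := hs.hasSum
  let i : GoodPrime N × ℕ → ℕ := fun x => x.1.1 ^ (x.2 + 1)
  have hi : Function.Injective i := by
    rintro ⟨⟨p, hp, hpN⟩, k⟩ ⟨⟨q, hq, hqN⟩, l⟩ h
    have h' : p ^ (k + 1) = q ^ (l + 1) := h
    have hd : p ∣ q ^ (l + 1) := h' ▸ dvd_pow_self p (Nat.succ_ne_zero k)
    have hpq : p = q := (Nat.prime_dvd_prime_iff_eq hp hq).mp (hp.dvd_of_dvd_pow hd)
    subst hpq
    have hkl : k + 1 = l + 1 := Nat.pow_right_injective hp.two_le h'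
    have hkl' : k = l := Nat.succ.inj hkl
    subst hkl'
    rfl
  have h0 : ∀ n, n ∉ Set.range i → LSeries.term (coef m) s n = 0 := by
    intro n hn
    rcases Nat.eq_zero_or_pos n with rfl | hn0
    · simp
    rw [LSeries.term_of_ne_zero hn0.ne']
    by_cases hpp : IsPrimePow n
    · obtain ⟨p, k, hp, hk, rfl⟩ := hpp
      have hp' : p.Prime := hp.nat_prime
      have hpN : p ∣ N := by
        by_contra hpN
        exact hn ⟨(⟨p, hp', hpN⟩, k - 1), by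
          show p ^ (k - 1 + 1) = p ^ k
          rw [Nat.sub_add_cancel hk]⟩
      simp only [coef]
      rw [hm p k hp' hk, if_pos hpN]
      simp
    · rw [coef_of_not hpp, zero_div]
  exact (hi.hasSum_iff h0).2 hsum

/-- the main term -/
lemma term_prime (hm : ∀ p k : ℕ, p.Prime → 0 < k →
      m (p ^ k) = if p ∣ N then 0 else ∑ t, (z t : ℂ) * B p t ^ k) (p : GoodPrime N) (s : ℂ) :
    LSeries.term (coef m) s (p.1 ^ (0 + 1)) = (∑ t, (z t : ℂ) * B p.1 t) * (p.1 : ℂ) ^ (-s) := by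
  have h1 := hm p.1 1 p.2.1 one_pos
  rw [if_neg p.2.2] at h1
  simp only [pow_one] at h1
  rw [zero_add, pow_one, LSeries.term_of_ne_zero p.2.1.ne_zero, coef, h1,
    ArithmeticFunction.vonMangoldt_apply_prime p.2.1,
    div_self (Real.log_pos (by exact_mod_cast p.2.1.one_lt)).ne', Complex.cpow_neg,
    div_eq_mul_inv]
  simp

lemma norm_term_le (hB : ∀ p : ℕ, p.Prime → ¬ p ∣ N → ∀ t, ‖B p t‖ ≤ (p : ℝ) ^ ((w : ℝ) / 2))
    (hm : ∀ p k : ℕ, p.Prime → 0 < k →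
      m (p ^ k) = if p ∣ N then 0 else ∑ t, (z t : ℂ) * B p t ^ k) {s : ℂ}
    (hs : (w : ℝ) / 2 + 1 < s.re) (x : GoodPrime N × ℕ) :
    ‖LSeries.term (coef m) s (x.1.1 ^ (x.2 + 1 + 1))‖ ≤
      (∑ t, ‖(z t : ℂ)‖) * ((x.1.1 : ℝ) ^ (-(3 / 2) : ℝ) * (1 / 2) ^ x.2) := by
  obtain ⟨⟨p, hp, hpN⟩, k⟩ := x
  have hp2 : (2 : ℝ) ≤ p := by exact_mod_cast hp.two_le
  have hp1 : (1 : ℝ) ≤ p := by linarith
  have hn0 : p ^ (k + 1 + 1) ≠ 0 := (pow_pos hp.pos _).ne'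
  have hn1 : (1 : ℝ) ≤ ((p ^ (k + 1 + 1) : ℕ) : ℝ) := by
    exact_mod_cast Nat.one_le_iff_ne_zero.mpr hn0
  rw [LSeries.norm_term_eq, if_neg hn0]
  have hC : 0 ≤ ∑ t, ‖(z t : ℂ)‖ := Finset.sum_nonneg fun _ _ => norm_nonneg _
  calc ‖coef m (p ^ (k + 1 + 1))‖ / ((p ^ (k + 1 + 1) : ℕ) : ℝ) ^ s.re
      ≤ ((∑ t, ‖(z t : ℂ)‖) * ((p ^ (k + 1 + 1) : ℕ) : ℝ) ^ ((w : ℝ) / 2)) /
          ((p ^ (k + 1 + 1) : ℕ) : ℝ) ^ s.re := by
        refine div_le_div_of_nonneg_right (norm_coef_le hB hm _) ?_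
        positivity
    _ = (∑ t, ‖(z t : ℂ)‖) * ((p ^ (k + 1 + 1) : ℕ) : ℝ) ^ ((w : ℝ) / 2 - s.re) := by
        rw [Real.rpow_sub (by linarith), mul_div_assoc]
    _ ≤ (∑ t, ‖(z t : ℂ)‖) * ((p ^ (k + 1 + 1) : ℕ) : ℝ) ^ (-1 : ℝ) := by
        refine mul_le_mul_of_nonneg_left ?_ hC
        exact Real.rpow_le_rpow_of_exponent_le hn1 (by linarith)
    _ ≤ (∑ t, ‖(z t : ℂ)‖) * ((p : ℝ) ^ (-(3 / 2) : ℝ) * (1 / 2) ^ k) := by
        refine mul_le_mul_of_nonneg_left ?_ hC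
        rw [Real.rpow_neg_one]
        push_cast
        have e1 : ((p : ℝ) ^ (k + 1 + 1))⁻¹ = ((p : ℝ) ^ 2)⁻¹ * ((p : ℝ)⁻¹) ^ k := by
          rw [show k + 1 + 1 = 2 + k by ring, pow_add, mul_inv, inv_pow]
        rw [e1]
        refine mul_le_mul ?_ ?_ (by positivity) (by positivity)
        · rw [← Real.rpow_natCast, ← Real.rpow_neg (by linarith)]
          exact Real.rpow_le_rpow_of_exponent_le hp1 (by norm_num)
        · refine pow_le_pow_left₀ (by positivity) ?_ k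
          rw [one_div]
          exact inv_anti₀ (by norm_num) hp2

lemma summable_bound (N : ℕ) :
    Summable fun x : GoodPrime N × ℕ => (x.1.1 : ℝ) ^ (-(3 / 2) : ℝ) * (1 / 2 : ℝ) ^ x.2 := by
  have h1 : Summable fun p : GoodPrime N => (p.1 : ℝ) ^ (-(3 / 2) : ℝ) := by
    have h := Real.summable_nat_rpow.mpr (show (-(3 / 2) : ℝ) < -1 by norm_num)
    exact h.comp_injective Subtype.val_injective
  have h2 : Summable fun k : ℕ => (1 / 2 : ℝ) ^ k := summable_geometric_two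
  exact h1.mul_of_nonneg h2 (fun p => by positivity) (fun k => by positivity)

/-- the series is its main term, up to a bounded function -/
lemma exists_bound (hB : ∀ p : ℕ, p.Prime → ¬ p ∣ N → ∀ t, ‖B p t‖ ≤ (p : ℝ) ^ ((w : ℝ) / 2))
    (hm : ∀ p k : ℕ, p.Prime → 0 < k →
      m (p ^ k) = if p ∣ N then 0 else ∑ t, (z t : ℂ) * B p t ^ k) :
    ∃ K : ℝ, ∀ s : ℂ, (w : ℝ) / 2 + 1 < s.re →
      ‖D m s - ∑' p : GoodPrime N, (∑ t, (z t : ℂ) * B p.1 t) * (p.1 : ℂ) ^ (-s)‖ ≤ K := by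
  let u : GoodPrime N × ℕ → ℝ := fun x =>
    (∑ t, ‖(z t : ℂ)‖) * ((x.1.1 : ℝ) ^ (-(3 / 2) : ℝ) * (1 / 2) ^ x.2)
  have hu : Summable u := (summable_bound N).mul_left _
  refine ⟨∑' x, u x, fun s hs => ?_⟩
  let a : GoodPrime N × ℕ → ℂ := fun x => LSeries.term (coef m) s (x.1.1 ^ (x.2 + 1))
  have ha : HasSum a (D m s) := hasSum_good hm (summable_of_lt hB hm hs)
  let b : GoodPrime N × ℕ → ℂ := fun x => a (x.1, x.2 + 1)
  have hbu : ∀ x, ‖b x‖ ≤ u x := fun x => norm_term_le hB hm hs x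
  have hb : Summable b := Summable.of_norm_bounded hu hbu
  have h0 : Summable fun p : GoodPrime N => a (p, 0) :=
    ha.summable.comp_injective (i := fun p : GoodPrime N => (p, 0)) (by
      intro p q h; exact (Prod.mk.inj h).1)
  have hp : ∀ p : GoodPrime N, ∑' k, a (p, k) = a (p, 0) + ∑' k, b (p, k) := fun p =>
    (ha.summable.prod_factor p).tsum_eq_zero_add
  have h1 : D m s = ∑' p, a (p, 0) + ∑' x, b x := by
    rw [← ha.tsum_eq, ha.summable.tsum_prod, hb.tsum_prod, ← h0.tsum_add hb.prod]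
    exact tsum_congr hp
  have h2 : ∑' p : GoodPrime N, (∑ t, (z t : ℂ) * B p.1 t) * (p.1 : ℂ) ^ (-s) =
      ∑' p, a (p, 0) := tsum_congr fun p => (term_prime hm p s).symm
  rw [h1, h2, add_sub_cancel_left]
  exact tsum_of_norm_bounded hu.hasSum hbu

/-- **Moments.** If the Euler product continues meromorphically, the Dirichlet average of the
normalised sums over the primes exists and is an integer. -/
theorem dirichlet_average (N : ℕ) {T : Type} [Fintype T] (z : T → ℤ) (B : ℕ → T → ℂ) (w : ℕ)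
    (hB : ∀ p : ℕ, p.Prime → ¬ p ∣ N → ∀ t, ‖B p t‖ ≤ (p : ℝ) ^ ((w : ℝ) / 2))
    (hre : ∀ p : ℕ, p.Prime → ¬ p ∣ N → (∑ t, (z t : ℂ) * B p t).im = 0) (m : ℕ → ℂ)
    (hm : ∀ p k : ℕ, p.Prime → 0 < k →
      m (p ^ k) = if p ∣ N then 0 else ∑ t, (z t : ℂ) * B p t ^ k)
    (hmero : Mero m) :
    ∃ r : ℤ, Tendsto (fun s : ℝ => (∑' p : GoodPrime N,
      (∑ t, (z t : ℂ) * B p.1 t) * (p.1 : ℂ) ^ (-(((w : ℝ) / 2 + s : ℝ) : ℂ))) /
        (Real.log (1 / (s - 1)) : ℂ)) (𝓝[>] 1) (𝓝 (r : ℂ)) := by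
  obtain ⟨F, hF, σ, hσ⟩ := hmero
  obtain ⟨ν, g, hg, hg0, hν⟩ := exists_order hF (analytic_of_lt hB hm)
    (fun s _ => Complex.exp_ne_zero _) hσ
  have hlim := log_limit (G := fun s => cexp (D m s)) hg hg0 hν
  obtain ⟨K, hK⟩ := exists_bound hB hm
  refine ⟨-ν, ?_⟩
  -- shift to `1`
  have hshift : Tendsto (fun s : ℝ => (w : ℝ) / 2 + s) (𝓝[>] 1) (𝓝[>] ((w : ℝ) / 2 + 1)) := by
    refine tendsto_nhdsWithin_iff.mpr ⟨?_, ?_⟩
    · exact ((continuous_const.add continuous_id).tendsto (1 : ℝ)).mono_left nhdsWithin_le_nhds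
    · filter_upwards [self_mem_nhdsWithin] with s hs
      exact Set.mem_Ioi.mpr (by linarith [Set.mem_Ioi.mp hs])
  have h1 := hlim.comp hshift
  have hlog : Tendsto (fun s : ℝ => Real.log (1 / (s - 1))) (𝓝[>] 1) atTop := by
    have h1 : Tendsto (fun s : ℝ => s - 1) (𝓝[>] 1) (𝓝[>] 0) := by
      refine tendsto_nhdsWithin_iff.mpr ⟨?_, ?_⟩
      · have : Tendsto (fun s : ℝ => s - 1) (𝓝 1) (𝓝 (1 - 1)) :=
          (continuous_id.sub continuous_const).tendsto (1 : ℝ)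
        rw [sub_self] at this
        exact this.mono_left nhdsWithin_le_nhds
      · filter_upwards [self_mem_nhdsWithin] with s hs
        exact Set.mem_Ioi.mpr (sub_pos.mpr (Set.mem_Ioi.mp hs))
    have h2 : Tendsto (fun s : ℝ => 1 / (s - 1)) (𝓝[>] 1) atTop := by
      simp only [one_div]
      exact tendsto_inv_nhdsGT_zero.comp h1
    exact Real.tendsto_log_atTop.comp h2
  set P : ℝ → ℂ := fun s => ∑' p : GoodPrime N,
    (∑ t, (z t : ℂ) * B p.1 t) * (p.1 : ℂ) ^ (-(((w : ℝ) / 2 + s : ℝ) : ℂ)) with hP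
  have hreP : ∀ s, (P s).im = 0 := by
    intro s
    have : ∀ p : GoodPrime N,
        (∑ t, (z t : ℂ) * B p.1 t) * (p.1 : ℂ) ^ (-(((w : ℝ) / 2 + s : ℝ) : ℂ)) =
        (((∑ t, (z t : ℂ) * B p.1 t).re * (p.1 : ℝ) ^ (-((w : ℝ) / 2 + s)) : ℝ) : ℂ) := by
      intro p
      have e1 : (∑ t, (z t : ℂ) * B p.1 t) = ((∑ t, (z t : ℂ) * B p.1 t).re : ℂ) := by
        apply Complex.ext
        · simp
        · rw [hre p.1 p.2.1 p.2.2]; simp
      have e2 : (p.1 : ℂ) ^ (-(((w : ℝ) / 2 + s : ℝ) : ℂ)) =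
          (((p.1 : ℝ) ^ (-((w : ℝ) / 2 + s)) : ℝ) : ℂ) := by
        rw [Complex.ofReal_cpow (Nat.cast_nonneg _)]
        push_cast
        rfl
      rw [e2, Complex.ofReal_mul, ← e1]
    rw [hP]
    simp only [this]
    rw [← Complex.ofReal_tsum, Complex.ofReal_im]
  have hbd : Tendsto (fun s : ℝ => ((D m (((w : ℝ) / 2 + s : ℝ) : ℂ)).re - (P s).re) /
      Real.log (1 / (s - 1))) (𝓝[>] 1) (𝓝 0) := by
    refine squeeze_zero_norm' (a := fun s => K / Real.log (1 / (s - 1))) ?_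
      (hlog.const_div_atTop K)
    filter_upwards [self_mem_nhdsWithin, hlog.eventually_gt_atTop 0] with s hs hs'
    rw [norm_div, Real.norm_of_nonneg hs'.le]
    refine div_le_div_of_nonneg_right ?_ hs'.le
    have h2 := hK (((w : ℝ) / 2 + s : ℝ) : ℂ) (by
      rw [Complex.ofReal_re]; linarith [Set.mem_Ioi.mp hs])
    refine le_trans ?_ h2
    rw [Real.norm_eq_abs, ← Complex.sub_re]
    exact Complex.abs_re_le_norm _
  have hfin : Tendsto (fun s : ℝ => (P s).re / Real.log (1 / (s - 1))) (𝓝[>] 1)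
      (𝓝 ((-ν : ℤ) : ℝ)) := by
    have h3 := h1.sub hbd
    rw [sub_zero] at h3
    refine h3.congr' ?_
    filter_upwards [self_mem_nhdsWithin] with s hs
    have h4 : Real.log ‖exp (D m (((w : ℝ) / 2 + s : ℝ) : ℂ))‖ =
        (D m (((w : ℝ) / 2 + s : ℝ) : ℂ)).re := by
      rw [Complex.norm_exp, Real.log_exp]
    have h5 : (w : ℝ) / 2 + s - ((w : ℝ) / 2 + 1) = s - 1 := by ring
    simp only [Function.comp_apply]
    rw [h4, h5, ← sub_div]
    congr 1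
    ring
  have hc := (Complex.continuous_ofReal.tendsto _).comp hfin
  have hcast : (((-ν : ℤ) : ℝ) : ℂ) = ((-ν : ℤ) : ℂ) := by push_cast; rfl
  rw [hcast] at hc
  refine hc.congr fun s => ?_
  have e : ((P s).re : ℂ) = P s :=
    Complex.ext (Complex.ofReal_re _) (by rw [Complex.ofReal_im, hreP])
  rw [Function.comp_apply, Complex.ofReal_div, e]

end series

end Pool.Agent.HW
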