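import Pool.Agent.HW3.Newt
import Pool.Agent.HW3.Quot

/-!
# The points of a symmetric power of an affine scheme

`Sym^m` of `Spec ℤ[x_1, …, x_r] ⧸ I`: the image of the invariants of the symmetric group in the
coordinate ring of the `m`-th power. Its points over an algebraically closed field are the
multisets of `m` points.
-/

namespace Pool.Agent.HW

open MvPolynomial Pool.Agent.HW3

/-- the symmetric group acts on the coordinate ring of the `m`-th power of affine space -/
noncomputable instance actR (m r : ℕ) :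
    MulSemiringAction (Equiv.Perm (Fin m)) (MvPolynomial (Fin m × Fin r) ℤ) where
  smul g f := rename (Prod.map g id) f
  one_smul f := by
    show rename (Prod.map (1 : Equiv.Perm (Fin m)) id) f = f
    have : Prod.map ((1 : Equiv.Perm (Fin m)) : Fin m → Fin m) (id : Fin r → Fin r) = id := by
      ext x <;> rfl
    rw [this, rename_id]
    rfl
  mul_smul g h f := by
    show rename (Prod.map (g * h) id) f = rename (Prod.map g id) (rename (Prod.map h id) f)
    rw [rename_rename]
    rfl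
  smul_zero g := map_zero _
  smul_add g := map_add _
  smul_one g := map_one _
  smul_mul g := map_mul _

lemma smul_X {m r : ℕ} (g : Equiv.Perm (Fin m)) (i : Fin m) (j : Fin r) :
    g • (X (i, j) : MvPolynomial (Fin m × Fin r) ℤ) = X (g i, j) :=
  rename_X _ _

/-- the inclusion of the `i`-th factor -/
noncomputable def inc {m r : ℕ} (i : Fin m) :
    MvPolynomial (Fin r) ℤ →+* MvPolynomial (Fin m × Fin r) ℤ :=
  (rename (fun j => (i, j)) : MvPolynomial (Fin r) ℤ →ₐ[ℤ] MvPolynomial (Fin m × Fin r) ℤ)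

lemma inc_X {m r : ℕ} (i : Fin m) (j : Fin r) : inc i (X j) = X (i, j) := rename_X _ _

/-- the ideal of the `m`-th power -/
noncomputable def powIdeal (m : ℕ) {r : ℕ} (I : Ideal (MvPolynomial (Fin r) ℤ)) :
    Ideal (MvPolynomial (Fin m × Fin r) ℤ) := ⨆ i : Fin m, I.map (inc i)

/-- the coordinate ring of the symmetric power, as a subring of that of the power -/
noncomputable abbrev symSub (m : ℕ) {r : ℕ} (I : Ideal (MvPolynomial (Fin r) ℤ)) :
    Subring (MvPolynomial (Fin m × Fin r) ℤ ⧸ powIdeal m I) :=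
  QB (Equiv.Perm (Fin m)) (powIdeal m I)

/-- the coordinate ring of the symmetric power -/
abbrev SymRing (m : ℕ) {r : ℕ} (I : Ideal (MvPolynomial (Fin r) ℤ)) : Type :=
  symSub m I

/-- the points -/
def Pts {r : ℕ} (I : Ideal (MvPolynomial (Fin r) ℤ)) (Ω : Type*) [CommRing Ω] : Type _ :=
  {φ : MvPolynomial (Fin r) ℤ →+* Ω // ∀ f ∈ I, φ f = 0}

/-- functoriality -/
noncomputable def Pts.map {r : ℕ} (I : Ideal (MvPolynomial (Fin r) ℤ)) {Ω : Type*} [CommRing Ω]
    (F : Ω →+* Ω) (y : Pts I Ω) : Pts I Ω :=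
  ⟨F.comp y.1, fun f hf => by rw [RingHom.comp_apply, y.2 f hf, map_zero]⟩

section points

variable {m r : ℕ} {I : Ideal (MvPolynomial (Fin r) ℤ)} {Ω : Type*} [CommRing Ω]

/-- the components of a point of the `m`-th power -/
noncomputable def comp (x : MvPolynomial (Fin m × Fin r) ℤ ⧸ powIdeal m I →+* Ω) (i : Fin m) :
    Pts I Ω :=
  ⟨(x.comp (Ideal.Quotient.mk _)).comp (inc i), fun f hf => by
    have h : inc i f ∈ powIdeal m I :=
      (le_iSup (fun i : Fin m => I.map (inc i)) i) (Ideal.mem_map_of_mem _ hf)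
    rw [RingHom.comp_apply, RingHom.comp_apply, Ideal.Quotient.eq_zero_iff_mem.mpr h, map_zero]⟩

lemma comp_X (x : MvPolynomial (Fin m × Fin r) ℤ ⧸ powIdeal m I →+* Ω) (i : Fin m)
    (j : Fin r) : (comp x i).1 (X j) = x (Ideal.Quotient.mk _ (X (i, j))) := by
  show x (Ideal.Quotient.mk _ (inc i (X j))) = _
  rw [inc_X]

lemma Pts.ext_X {y y' : Pts I Ω} (h : ∀ j, y.1 (X j) = y'.1 (X j)) : y = y' :=
  Subtype.ext (MvPolynomial.ringHom_ext' (Subsingleton.elim _ _) h)

lemma smul_eq_iff (x x' : MvPolynomial (Fin m × Fin r) ℤ ⧸ powIdeal m I →+* Ω)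
    (g : Equiv.Perm (Fin m)) :
    (∀ f, x' (Ideal.Quotient.mk _ f) = x (Ideal.Quotient.mk _ (g • f))) ↔
      ∀ i, comp x' i = comp x (g i) := by
  constructor
  · intro h i
    apply Pts.ext_X
    intro j
    rw [comp_X, comp_X, h, smul_X]
  · intro h f
    have : x'.comp (Ideal.Quotient.mk _) =
        (x.comp (Ideal.Quotient.mk _)).comp (MulSemiringAction.toRingHom _ _ g) := by
      refine MvPolynomial.ringHom_ext' (Subsingleton.elim _ _) ?_
      rintro ⟨i, j⟩
      show x' (Ideal.Quotient.mk _ (X (i, j))) = x (Ideal.Quotient.mk _ (g • X (i, j)))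
      rw [smul_X, ← comp_X, ← comp_X, h i]
    exact RingHom.congr_fun this f

lemma exists_comp (y : Fin m → Pts I Ω) :
    ∃ x : MvPolynomial (Fin m × Fin r) ℤ ⧸ powIdeal m I →+* Ω, ∀ i, comp x i = y i := by
  let φ : MvPolynomial (Fin m × Fin r) ℤ →+* Ω :=
    eval₂Hom (Int.castRingHom Ω) (fun a => (y a.1).1 (X a.2))
  have hφ : ∀ i, φ.comp (inc i) = (y i).1 := by
    intro i
    refine MvPolynomial.ringHom_ext' (Subsingleton.elim _ _) ?_
    intro j
    show φ (inc i (X j)) = _
    rw [inc_X]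
    simp [φ]
  have hker : ∀ f ∈ powIdeal m I, φ f = 0 := by
    have : powIdeal m I ≤ RingHom.ker φ := by
      refine iSup_le fun i => ?_
      rw [Ideal.map_le_iff_le_comap]
      intro f hf
      show φ (inc i f) = 0
      have := RingHom.congr_fun (hφ i) f
      rw [RingHom.comp_apply] at this
      rw [this]
      exact (y i).2 f hf
    exact this
  refine ⟨Ideal.Quotient.lift _ φ hker, fun i => ?_⟩
  apply Pts.ext_X
  intro j
  rw [comp_X]
  show φ (X (i, j)) = _
  simp [φ]

/-- the multiset of the components -/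
noncomputable def ms (x : MvPolynomial (Fin m × Fin r) ℤ ⧸ powIdeal m I →+* Ω) :
    Multiset (Pts I Ω) := Finset.univ.val.map (comp x)

lemma card_ms (x : MvPolynomial (Fin m × Fin r) ℤ ⧸ powIdeal m I →+* Ω) :
    (ms x).card = m := by simp [ms]

lemma exists_perm {ι Y : Type*} [Fintype ι] (f f' : ι → Y) :
    (Finset.univ.val.map f = Finset.univ.val.map f') ↔ ∃ g : Equiv.Perm ι, ∀ i, f' i = f (g i) := by
  classical
  constructor
  · intro h
    have hc : ∀ b : Y, Nonempty ({i // f' i = b} ≃ {i // f i = b}) := by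
      intro b
      have h1 := congrArg (Multiset.count b) h
      rw [Multiset.count_map, Multiset.count_map] at h1
      refine Fintype.card_eq.mp ?_
      rw [Fintype.card_subtype, Fintype.card_subtype]
      simp only [Finset.card_def, Finset.filter_val]
      simp only [eq_comm (a := b)] at h1
      exact h1.symm
    have e := fun b => Classical.choice (hc b)
    refine ⟨(Equiv.sigmaFiberEquiv f').symm.trans
      ((Equiv.sigmaCongrRight fun b => (e b)).trans (Equiv.sigmaFiberEquiv f)), fun i => ?_⟩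
    exact ((e (f' i)) ⟨i, rfl⟩).2.symm
  · rintro ⟨g, hg⟩
    have : f' = f ∘ g := funext hg
    rw [this, ← Multiset.map_map, Multiset.map_univ_val_equiv]

lemma exists_ms (s : Multiset (Pts I Ω)) (hs : s.card = m) :
    ∃ x : MvPolynomial (Fin m × Fin r) ℤ ⧸ powIdeal m I →+* Ω, ms x = s := by
  obtain ⟨l, rfl⟩ := Quot.exists_rep s
  have hl : l.length = m := hs
  subst hl
  obtain ⟨x, hx⟩ := exists_comp (I := I) (m := l.length) l.get
  refine ⟨x, ?_⟩
  have : comp x = l.get := funext hx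
  rw [ms, this]
  show Multiset.map l.get (Finset.univ : Finset (Fin l.length)).val = (l : Multiset _)
  rw [Fin.univ_val_map, List.ofFn_get]

lemma ms_comp (x : MvPolynomial (Fin m × Fin r) ℤ ⧸ powIdeal m I →+* Ω) (F : Ω →+* Ω) :
    ms (F.comp x) = (ms x).map (Pts.map I F) := by
  rw [ms, ms, Multiset.map_map]
  rfl

end points

section closed

variable {m r : ℕ} {I : Ideal (MvPolynomial (Fin r) ℤ)} {Ω : Type*} [Field Ω]

lemma ms_eq_iff (x x' : MvPolynomial (Fin m × Fin r) ℤ ⧸ powIdeal m I →+* Ω) :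
    ms x = ms x' ↔ x.comp (symSub m I).subtype = x'.comp (symSub m I).subtype := by
  rw [ms, ms, exists_perm]
  constructor
  · rintro ⟨g, hg⟩
    exact QB_agree _ _ g ((smul_eq_iff x x' g).mpr hg)
  · intro h
    obtain ⟨g, hg⟩ := QB_conj _ _ h
    exact ⟨g, (smul_eq_iff x x' g).mp hg⟩

variable [IsAlgClosed Ω]

/-- the points of the symmetric power are the multisets of points -/
noncomputable def symEquiv (m : ℕ) {r : ℕ} (I : Ideal (MvPolynomial (Fin r) ℤ)) (Ω : Type*)
    [Field Ω] [IsAlgClosed Ω] :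
    (SymRing m I →+* Ω) ≃ {s : Multiset (Pts I Ω) // s.card = m} :=
  Equiv.ofBijective (fun ψ => ⟨ms (QB_extend _ _ ψ).choose, card_ms _⟩) (by
    constructor
    · intro ψ ψ' h
      have h1 : ms (QB_extend _ _ ψ).choose = ms (QB_extend _ _ ψ').choose :=
        congrArg Subtype.val h
      rw [ms_eq_iff, (QB_extend _ _ ψ).choose_spec, (QB_extend _ _ ψ').choose_spec] at h1
      exact h1
    · rintro ⟨s, hs⟩
      obtain ⟨x, rfl⟩ := exists_ms s hs
      refine ⟨x.comp (symSub m I).subtype, Subtype.ext ?_⟩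
      show ms _ = ms x
      rw [ms_eq_iff]
      exact (QB_extend _ _ (x.comp (symSub m I).subtype)).choose_spec)

lemma symEquiv_spec (ψ : SymRing m I →+* Ω)
    (x : MvPolynomial (Fin m × Fin r) ℤ ⧸ powIdeal m I →+* Ω)
    (hx : x.comp (symSub m I).subtype = ψ) : (symEquiv m I Ω ψ).1 = ms x := by
  show ms _ = ms x
  rw [ms_eq_iff, hx]
  exact (QB_extend _ _ ψ).choose_spec

lemma symEquiv_comp (ψ : SymRing m I →+* Ω) (F : Ω →+* Ω) :
    (symEquiv m I Ω (F.comp ψ)).1 = (symEquiv m I Ω ψ).1.map (Pts.map I F) := by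
  obtain ⟨x, hx⟩ := QB_extend _ _ ψ
  rw [symEquiv_spec ψ x hx, ← ms_comp]
  apply symEquiv_spec
  rw [← hx]
  rfl

/-- the points fixed by `F` are the multisets stable under `F` -/
noncomputable def stabEquiv (m : ℕ) {r : ℕ} (I : Ideal (MvPolynomial (Fin r) ℤ)) {Ω : Type*}
    [Field Ω] [IsAlgClosed Ω] (F : Ω →+* Ω) :
    {ψ : SymRing m I →+* Ω // F.comp ψ = ψ} ≃ Stab (Pts.map I F) m where
  toFun ψ := ⟨(symEquiv m I Ω ψ.1).1, (symEquiv m I Ω ψ.1).2, by
    rw [← symEquiv_comp, ψ.2]⟩
  invFun s := ⟨(symEquiv m I Ω).symm ⟨s.1, s.2.1⟩, by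
    apply (symEquiv m I Ω).injective
    apply Subtype.ext
    rw [symEquiv_comp, Equiv.apply_symm_apply]
    exact s.2.2⟩
  left_inv ψ := by
    apply Subtype.ext
    exact (symEquiv m I Ω).symm_apply_apply ψ.1
  right_inv s := by
    apply Subtype.ext
    show (symEquiv m I Ω ((symEquiv m I Ω).symm ⟨s.1, s.2.1⟩)).1 = s.1
    rw [Equiv.apply_symm_apply]

lemma card_sym (m : ℕ) {r : ℕ} (I : Ideal (MvPolynomial (Fin r) ℤ)) {Ω : Type*}
    [Field Ω] [IsAlgClosed Ω] (F : Ω →+* Ω) :
    Nat.card {ψ : SymRing m I →+* Ω // F.comp ψ = ψ} = Nat.card (Stab (Pts.map I F) m) :=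
  Nat.card_congr (stabEquiv m I F)

end closed

lemma finiteType_int {R : Type*} [CommRing R] (a b : Algebra ℤ R)
    (h : @Algebra.FiniteType ℤ R _ _ a) : @Algebra.FiniteType ℤ R _ _ b := by
  have : a = b := Subsingleton.elim _ _
  exact this ▸ h

instance finiteType_SymRing (m : ℕ) {r : ℕ} (I : Ideal (MvPolynomial (Fin r) ℤ)) :
    Algebra.FiniteType ℤ (SymRing m I) := by
  have h0 : Algebra.FiniteType ℤ (MvPolynomial (Fin m × Fin r) ℤ) := inferInstance
  have h2 : @Algebra.FiniteType ℤ (MvPolynomial (Fin m × Fin r) ℤ) _ _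
      (Ring.toIntAlgebra _) := finiteType_int _ _ h0
  exact finiteType_QB (Equiv.Perm (Fin m)) (powIdeal m I)

/-- the points of a quotient of a polynomial ring -/
noncomputable def ptsEquiv {r : ℕ} (I : Ideal (MvPolynomial (Fin r) ℤ)) (Ω : Type*) [CommRing Ω] :
    Pts I Ω ≃ (MvPolynomial (Fin r) ℤ ⧸ I →+* Ω) where
  toFun y := Ideal.Quotient.lift I y.1 y.2
  invFun x := ⟨x.comp (Ideal.Quotient.mk I), fun f hf => by
    rw [RingHom.comp_apply, Ideal.Quotient.eq_zero_iff_mem.mpr hf, map_zero]⟩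
  left_inv y := Subtype.ext (by ext <;> rfl)
  right_inv x := by ext <;> rfl

end Pool.Agent.HW
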