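import Pool.Agent.HW.Count
import Pool.Agent.HW.Rec
import Pool.Agent.HW.SymPts

/-!
# Symmetric powers of counting functions

If `c` counts the points of an affine scheme of finite type over `ℤ`, so do the numbers of points
`σ m` of its symmetric powers, and these satisfy Newton's recursion.
-/

namespace Pool.Agent.HW

open Pool.Agent.Helper29.Zeta Pool.Agent.HW3

/-- transport of multisets along an equivalence -/
def multisetEquiv {Y Y' : Type*} (e : Y ≃ Y') (m : ℕ) :
    {s : Multiset Y // s.card = m} ≃ {s : Multiset Y' // s.card = m} where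
  toFun s := ⟨s.1.map e, by rw [Multiset.card_map, s.2]⟩
  invFun s := ⟨s.1.map e.symm, by rw [Multiset.card_map, s.2]⟩
  left_inv s := Subtype.ext (by
    show (s.1.map e).map e.symm = s.1
    rw [Multiset.map_map, Equiv.symm_comp_self, Multiset.map_id])
  right_inv s := Subtype.ext (by
    show (s.1.map e.symm).map e = s.1
    rw [Multiset.map_map, Equiv.self_comp_symm, Multiset.map_id])

/-- the points of the symmetric powers of `ℤ[x_1, …, x_r] ⧸ I` -/
noncomputable def symE (m : ℕ) {r : ℕ} (I : Ideal (MvPolynomial (Fin r) ℤ)) (Ω : Type*)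
    [Field Ω] [IsAlgClosed Ω] :
    (SymRing m I →+* Ω) ≃ {s : Multiset (MvPolynomial (Fin r) ℤ ⧸ I →+* Ω) // s.card = m} :=
  (symEquiv m I Ω).trans (multisetEquiv (ptsEquiv I Ω) m)

lemma symE_comp (m : ℕ) {r : ℕ} (I : Ideal (MvPolynomial (Fin r) ℤ)) {Ω : Type*}
    [Field Ω] [IsAlgClosed Ω] (F : Ω →+* Ω) (ψ : SymRing m I →+* Ω) :
    (symE m I Ω (F.comp ψ)).1 = (symE m I Ω ψ).1.map fun u => F.comp u := by
  show (symEquiv m I Ω (F.comp ψ)).1.map (ptsEquiv I Ω) =
    ((symEquiv m I Ω ψ).1.map (ptsEquiv I Ω)).map fun u => F.comp u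
  rw [symEquiv_comp, Multiset.map_map, Multiset.map_map]
  refine Multiset.map_congr rfl fun y _ => ?_
  show ptsEquiv I Ω (Pts.map I F y) = F.comp (ptsEquiv I Ω y)
  refine Ideal.Quotient.ringHom_ext ?_
  rfl

/-- the numbers of points of the symmetric powers of an affine scheme -/
theorem sym_rec_FF {r : ℕ} (I : Ideal (MvPolynomial (Fin r) ℤ))
    (hft : @Algebra.FiniteType ℤ (MvPolynomial (Fin r) ℤ ⧸ I) _ _ (Ring.toIntAlgebra _))
    {n : ℕ} (hn : IsPrimePow n) (m : ℕ) :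
    m * Nat.card (SymRing m I →+* FF n) = ∑ j ∈ Finset.range m,
      Nat.card (MvPolynomial (Fin r) ℤ ⧸ I →+* FF (n ^ (j + 1))) *
        Nat.card (SymRing (m - (j + 1)) I →+* FF n) := by
  obtain ⟨p, k, hp, hk, rfl⟩ := hn
  have : Fact p.Prime := ⟨hp.nat_prime⟩
  have hchar : ∀ l, 0 < l → CharP (FF (p ^ l)) p := by
    intro l hl
    have := Fintype.ofFinite (FF (p ^ l))
    refine charP_of_card_eq_prime_pow (f := l) ?_
    rw [← Nat.card_eq_fintype_card]
    exact card_FF ⟨p, l, hp, hl, rfl⟩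
  have h1 : CharP (FF (p ^ k)) p := hchar k hk
  have h2 : ∀ j, CharP (FF ((p ^ k) ^ (j + 1))) p := by
    intro j
    rw [← pow_mul]
    exact hchar _ (Nat.mul_pos hk (Nat.succ_pos j))
  exact sym_rec p (Ω := AlgebraicClosure (ZMod p)) (MvPolynomial (Fin r) ℤ ⧸ I)
    (fun m => SymRing m I) hk (fun m => symE m I _) (fun m y => symE_comp m I _ y)
    (FF (p ^ k)) (card_FF ⟨p, k, hp, hk, rfl⟩) (fun j => FF ((p ^ k) ^ (j + 1)))
    (fun j => card_FF ⟨p, k * (j + 1), hp, Nat.mul_pos hk (Nat.succ_pos j), (pow_mul _ _ _)⟩) m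

theorem sym_zero_FF {r : ℕ} (I : Ideal (MvPolynomial (Fin r) ℤ)) {n : ℕ} (hn : IsPrimePow n) :
    Nat.card (SymRing 0 I →+* FF n) = 1 := by
  obtain ⟨p, k, hp, hk, rfl⟩ := hn
  have : Fact p.Prime := ⟨hp.nat_prime⟩
  have := Fintype.ofFinite (FF (p ^ k))
  have hc : Nat.card (FF (p ^ k)) = p ^ k := card_FF ⟨p, k, hp, hk, rfl⟩
  have h1 : CharP (FF (p ^ k)) p := by
    refine charP_of_card_eq_prime_pow (f := k) ?_
    rw [← Nat.card_eq_fintype_card]
    exact hc
  exact sym_zero p (Ω := AlgebraicClosure (ZMod p)) (MvPolynomial (Fin r) ℤ ⧸ I) (SymRing 0 I) k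
    (symE 0 I _) (fun y => symE_comp 0 I _ y) (FF (p ^ k)) hc

lemma ft_any {R S : Type*} [CommRing R] [CommRing S] [Algebra.FiniteType ℤ R] (f : R →+* S)
    (hf : Function.Surjective f) : Algebra.FiniteType ℤ S :=
  Algebra.FiniteType.of_surjective f.toIntAlgHom hf

/-- the symmetric powers of a counting function -/
theorem sym_exists {c : ℕ → ℂ} (hc : IsCount c) :
    ∃ σ : ℕ → ℕ → ℂ, (∀ m, IsCount (σ m)) ∧ (∀ n, IsPrimePow n → σ 0 n = 1) ∧
      ∀ n, IsPrimePow n → ∀ m : ℕ, (m : ℂ) * σ m n =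
        ∑ j ∈ Finset.range m, c (n ^ (j + 1)) * σ (m - (j + 1)) n := by
  obtain ⟨A, _, hA, hAc⟩ := hc
  obtain ⟨r, f, hf⟩ := (Algebra.FiniteType.iff_quotient_mvPolynomial'' (R := ℤ) (S := A)).mp hA
  let I : Ideal (MvPolynomial (Fin r) ℤ) := RingHom.ker f.toRingHom
  let e : (MvPolynomial (Fin r) ℤ ⧸ I) ≃+* A := RingHom.quotientKerEquivOfSurjective hf
  have hfin : @Algebra.FiniteType ℤ (MvPolynomial (Fin r) ℤ ⧸ I) _ _ (Ring.toIntAlgebra _) :=
    ft_any e.symm.toRingHom e.symm.surjective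
  refine ⟨fun m n => (Nat.card (SymRing m I →+* FF n) : ℂ), fun m => ?_, fun n hn => ?_,
    fun n hn m => ?_⟩
  · exact ⟨SymRing m I, inferInstance, inferInstance, fun n _ => rfl⟩
  · show (Nat.card (SymRing 0 I →+* FF n) : ℂ) = 1
    rw [sym_zero_FF I hn, Nat.cast_one]
  · have h := sym_rec_FF I hfin hn m
    have h' := congrArg (Nat.cast : ℕ → ℂ) h
    push_cast at h'
    refine h'.trans (Finset.sum_congr rfl fun j _ => ?_)
    congr 1
    rw [hAc _ (hn.pow (Nat.succ_ne_zero j))]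
    congr 1
    exact Nat.card_congr
      { toFun := fun φ => φ.comp e.symm.toRingHom
        invFun := fun φ => φ.comp e.toRingHom
        left_inv := fun φ => by ext <;> simp
        right_inv := fun φ => by ext; simp }

end Pool.Agent.HW
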