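import Mathlib
import Pool.Agent.HW3.Quot

/-!
# The points of a symmetric power of a finitely generated ring
-/

set_option autoImplicit false

open MvPolynomial Equiv

namespace Pool.Agent.HW

open Pool.Agent.HW3

section sym

variable (r m : ℕ)

/-- the polynomial ring in `m * r` variables -/
abbrev SR : Type := MvPolynomial (Fin m × Fin r) ℤ

/-- the permutation of the variables -/
noncomputable def permAut : Perm (Fin m) →* RingAut (SR r m) where
  toFun g := (renameEquiv ℤ (Equiv.prodCongr g (Equiv.refl (Fin r)))).toRingEquiv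
  map_one' := by
    ext1 x
    change rename _ x = x
    have : (⇑(Equiv.prodCongr (1 : Perm (Fin m)) (Equiv.refl (Fin r)))) = id := by
      ext x <;> rfl
    rw [this, rename_id_apply]
  map_mul' g h := by
    ext1 x
    change rename _ x = rename _ (rename _ x)
    rw [rename_rename]
    rfl

/-- the action of the symmetric group on the polynomial ring -/
noncomputable instance permAct : MulSemiringAction (Perm (Fin m)) (SR r m) :=
  MulSemiringAction.compHom (SR r m) (permAut r m)

lemma perm_smul (g : Perm (Fin m)) (f : SR r m) :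
    g • f = rename (fun p : Fin m × Fin r => (g p.1, p.2)) f := rfl

variable {r}
variable {A : Type} [CommRing A] (π : MvPolynomial (Fin r) ℤ →+* A)

/-- the ideal of the `m`-fold tensor power -/
noncomputable def SJ : Ideal (SR r m) :=
  Ideal.span {f | ∃ (i : Fin m) (h : MvPolynomial (Fin r) ℤ), π h = 0 ∧ f = rename (fun j => (i, j)) h}

/-- the ring of the symmetric power -/
abbrev SB : Type := QB (Perm (Fin m)) (SJ m π)

variable {m π}

variable {Ω : Type*} [CommRing Ω]

/-- the coordinates of a point of the `m`-fold product -/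
noncomputable def coord (hπ : Function.Surjective π) (x : SR r m ⧸ SJ m π →+* Ω) (i : Fin m) :
    A →+* Ω :=
  RingHom.liftOfSurjective π hπ
    ⟨(x.comp (Ideal.Quotient.mk (SJ m π))).comp (rename (R := ℤ) (fun j => (i, j))).toRingHom, by
      intro h hh
      rw [RingHom.mem_ker] at hh ⊢
      have : Ideal.Quotient.mk (SJ m π) (rename (fun j => (i, j)) h) = 0 := by
        rw [Ideal.Quotient.eq_zero_iff_mem]
        exact Ideal.subset_span ⟨i, h, hh, rfl⟩
      show x (Ideal.Quotient.mk (SJ m π) (rename (fun j => (i, j)) h)) = 0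
      rw [this, map_zero]⟩

lemma coord_apply (hπ : Function.Surjective π) (x : SR r m ⧸ SJ m π →+* Ω) (i : Fin m)
    (h : MvPolynomial (Fin r) ℤ) :
    coord hπ x i (π h) = x (Ideal.Quotient.mk (SJ m π) (rename (fun j => (i, j)) h)) := by
  unfold coord
  exact RingHom.liftOfRightInverse_comp_apply π _ _ _ _

lemma coord_comp (hπ : Function.Surjective π) {Ω' : Type*} [CommRing Ω'] (φ : Ω →+* Ω')
    (x : SR r m ⧸ SJ m π →+* Ω) (i : Fin m) :
    coord hπ (φ.comp x) i = φ.comp (coord hπ x i) := by
  ext a
  obtain ⟨h, rfl⟩ := hπ a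
  rw [coord_apply, RingHom.comp_apply, RingHom.comp_apply, coord_apply]

/-- homomorphisms out of the quotient are determined by the values at the variables -/
lemma hom_eq_of_var {x x' : SR r m ⧸ SJ m π →+* Ω}
    (h : ∀ p, x (Ideal.Quotient.mk (SJ m π) (X p)) = x' (Ideal.Quotient.mk (SJ m π) (X p))) :
    x = x' := by
  apply Ideal.Quotient.ringHom_ext
  apply MvPolynomial.ringHom_ext
  · intro n
    simp
  · intro p
    exact h p

lemma coord_inj (hπ : Function.Surjective π) {x x' : SR r m ⧸ SJ m π →+* Ω}
    (h : ∀ i, coord hπ x i = coord hπ x' i) : x = x' := by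
  apply hom_eq_of_var
  rintro ⟨i, j⟩
  have := congrArg (fun f : A →+* Ω => f (π (X j))) (h i)
  simpa [coord_apply] using this

/-- the point with given coordinates -/
lemma exists_coord (hπ : Function.Surjective π) (a : Fin m → A →+* Ω) :
    ∃ x : SR r m ⧸ SJ m π →+* Ω, ∀ i, coord hπ x i = a i := by
  let x0 : SR r m →+* Ω := eval₂Hom (Int.castRingHom Ω) (fun p => a p.1 (π (X p.2)))
  have h0 : ∀ (i : Fin m) (h : MvPolynomial (Fin r) ℤ),
      x0 (rename (fun j => (i, j)) h) = a i (π h) := by
    intro i h
    have : x0.comp (rename (R := ℤ) (fun j => (i, j))).toRingHom = (a i).comp π := by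
      apply MvPolynomial.ringHom_ext
      · intro n
        simp
      · intro j
        simp [x0]
    exact congrArg (fun f => f h) this
  have h1 : ∀ f ∈ SJ m π, x0 f = 0 := by
    intro f hf
    rw [← RingHom.mem_ker]
    refine (Ideal.span_le.2 ?_) hf
    rintro _ ⟨i, h, hh, rfl⟩
    show x0 _ = 0
    rw [h0, hh, map_zero]
  refine ⟨Ideal.Quotient.lift _ x0 h1, ?_⟩
  intro i
  ext b
  obtain ⟨h, rfl⟩ := hπ b
  rw [coord_apply, Ideal.Quotient.lift_mk, h0]

lemma coord_perm (hπ : Function.Surjective π) {x x' : SR r m ⧸ SJ m π →+* Ω} (g : Perm (Fin m)) :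
    (∀ f : SR r m, x' (Ideal.Quotient.mk _ f) = x (Ideal.Quotient.mk _ (g • f))) ↔
      ∀ i, coord hπ x' i = coord hπ x (g i) := by
  constructor
  · intro h i
    ext b
    obtain ⟨f, rfl⟩ := hπ b
    rw [coord_apply, coord_apply, h, perm_smul, rename_rename]
    rfl
  · intro h f
    have key : (x'.comp (Ideal.Quotient.mk (SJ m π))) =
        (x.comp (Ideal.Quotient.mk (SJ m π))).comp
          (MulSemiringAction.toRingHom (Perm (Fin m)) (SR r m) g) := by
      apply MvPolynomial.ringHom_ext
      · intro n
        simp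
      · rintro ⟨i, j⟩
        have h2 := congrArg (fun f : A →+* Ω => f (π (X j))) (h i)
        simp only [coord_apply, rename_X] at h2
        show x' _ = x (Ideal.Quotient.mk _ (g • X (i, j)))
        rw [perm_smul, rename_X]
        exact h2
    exact congrArg (fun F => F f) key

/-- the multiset of the coordinates -/
noncomputable def coords (hπ : Function.Surjective π) (x : SR r m ⧸ SJ m π →+* Ω) :
    Multiset (A →+* Ω) :=
  (Finset.univ : Finset (Fin m)).val.map (coord hπ x)

lemma map_univ_eq_iff {Y : Type*} {m : ℕ} (a b : Fin m → Y) :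
    (Finset.univ : Finset (Fin m)).val.map a = (Finset.univ : Finset (Fin m)).val.map b ↔
      ∃ g : Perm (Fin m), ∀ i, a i = b (g i) := by
  classical
  constructor
  · intro h
    have hc : ∀ y, Nonempty ({i // a i = y} ≃ {i // b i = y}) := by
      intro y
      rw [← Fintype.card_eq, Fintype.card_subtype, Fintype.card_subtype]
      have := congrArg (Multiset.count y) h
      rw [Multiset.count_map, Multiset.count_map] at this
      simpa [Finset.card, eq_comm] using this
    refine ⟨(Equiv.sigmaFiberEquiv a).symm.trans ((Equiv.sigmaCongrRight fun y =>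
      (hc y).some).trans (Equiv.sigmaFiberEquiv b)), fun i => ?_⟩
    exact ((hc (a i)).some ⟨i, rfl⟩).2.symm
  · rintro ⟨g, hg⟩
    have : a = b ∘ g := funext hg
    rw [this, ← Multiset.map_map]
    congr 1
    simp

lemma ft_int {R : Type} [CommRing R] {i : Algebra ℤ R} (h : @Algebra.FiniteType ℤ R _ _ i) :
    Algebra.FiniteType ℤ R := by
  convert h

lemma ft_SR (r m : ℕ) : @Algebra.FiniteType ℤ (SR r m) _ _ (Ring.toIntAlgebra _) :=
  ft_int (inferInstance : Algebra.FiniteType ℤ (SR r m))

lemma exists_fun {Y : Type*} {m : ℕ} (s : Multiset Y) (hs : s.card = m) :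
    ∃ a : Fin m → Y, (Finset.univ : Finset (Fin m)).val.map a = s := by
  subst hs
  induction s using Quot.induction_on with
  | _ l =>
    refine ⟨fun i => l.get i, ?_⟩
    show Multiset.map (fun i : Fin l.length => l.get i) (Finset.univ : Finset (Fin l.length)).val = _
    rw [Fin.univ_val_map]
    exact congrArg _ (List.ofFn_get l)

end sym

/-- **the points of the symmetric power** of a finitely generated ring with values in an
algebraically closed field, with the action of the endomorphisms of the field -/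
theorem sym_hom (A : Type) [CommRing A] [Algebra.FiniteType ℤ A] (m : ℕ) :
    ∃ (B : Type) (_ : CommRing B), Algebra.FiniteType ℤ B ∧
      ∀ (Ω : Type) [Field Ω] [IsAlgClosed Ω],
        ∃ e : (B →+* Ω) ≃ {s : Multiset (A →+* Ω) // s.card = m},
          ∀ (φ : Ω →+* Ω) (y : B →+* Ω),
            (e (φ.comp y)).1 = (e y).1.map (fun a => φ.comp a) := by
  obtain ⟨r, π, hπ⟩ := Algebra.FiniteType.iff_quotient_mvPolynomial''.1
    (inferInstance : Algebra.FiniteType ℤ A)
  let ρ : MvPolynomial (Fin r) ℤ →+* A := π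
  have hρ : Function.Surjective ρ := hπ
  have h1 := ft_SR r m
  have h2 : Algebra.FiniteType ℤ (SB m ρ) := finiteType_QB (Perm (Fin m)) (SJ m ρ)
  refine ⟨SB m ρ, inferInstance, h2, ?_⟩
  intro Ω _ _
  have hex : ∀ y : SB m ρ →+* Ω, ∃ x : SR r m ⧸ SJ m ρ →+* Ω,
      x.comp (QB (Perm (Fin m)) (SJ m ρ)).subtype = y := fun y => QB_extend _ _ y
  choose E hE using hex
  have key : ∀ (x x' : SR r m ⧸ SJ m ρ →+* Ω),
      x.comp (QB (Perm (Fin m)) (SJ m ρ)).subtype = x'.comp (QB (Perm (Fin m)) (SJ m ρ)).subtype ↔
      coords hρ x = coords hρ x' := by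
    intro x x'
    unfold coords
    rw [eq_comm (a := Multiset.map (coord hρ x) _), map_univ_eq_iff]
    constructor
    · intro h
      obtain ⟨g, hg⟩ := QB_conj _ _ h
      exact ⟨g, (coord_perm hρ g).1 hg⟩
    · rintro ⟨g, hg⟩
      exact QB_agree _ _ g ((coord_perm hρ g).2 hg)
  let f : (SB m ρ →+* Ω) → {s : Multiset (A →+* Ω) // s.card = m} := fun y =>
    ⟨coords hρ (E y), by simp [coords]⟩
  have hf : ∀ x : SR r m ⧸ SJ m ρ →+* Ω,
      (f (x.comp (QB (Perm (Fin m)) (SJ m ρ)).subtype)).1 = coords hρ x := by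
    intro x
    exact (key _ _).1 (hE _)
  have hbij : Function.Bijective f := by
    constructor
    · intro y y' h
      rw [← hE y, ← hE y', key]
      exact congrArg Subtype.val h
    · rintro ⟨s, hs⟩
      obtain ⟨a, ha⟩ := exists_fun s hs
      obtain ⟨x, hx⟩ := exists_coord hρ a
      refine ⟨x.comp (QB (Perm (Fin m)) (SJ m ρ)).subtype, ?_⟩
      apply Subtype.ext
      rw [hf]
      unfold coords
      rw [show coord hρ x = a from funext hx, ha]
  refine ⟨Equiv.ofBijective f hbij, ?_⟩
  intro φ y
  show (f (φ.comp y)).1 = (f y).1.map (fun a => φ.comp a)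
  have h1 : φ.comp y = (φ.comp (E y)).comp (QB (Perm (Fin m)) (SJ m ρ)).subtype := by
    rw [RingHom.comp_assoc, hE]
  rw [h1, hf]
  show coords hρ (φ.comp (E y)) = (coords hρ (E y)).map _
  unfold coords
  rw [Multiset.map_map]
  refine Multiset.map_congr rfl ?_
  intro i _
  exact coord_comp hρ φ (E y) i

end Pool.Agent.HW
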